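import Pool.Agent.VX.Basic
import Pool.Agent.VW.Over

/-! Job VX-Fin. From bounded commutator width to finite widths (displacement). -/

namespace Pool.Agent.VX

open Pool.Agent.VW
open scoped commutatorElement

/-- the embedding of `F ⧸ N` in a wreath product at level `n` -/
private noncomputable def finΘ {F X S : Type} [Group F] [Nonempty X] (ψ : S → F →* Wr F X)
    (n : ℕ) (ω : ℕ → S) : F ⧸ NN ψ ω →* Wr (F ⧸ NN ψ (shn n ω)) (Wd X n) :=
  QuotientGroup.lift (NN ψ ω)
    ((Wr.map (QuotientGroup.mk' (NN ψ (shn n ω)))).comp (iter ψ n ω)) (by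
      intro f hf
      obtain ⟨h1, h2⟩ := (mem_NN_level ψ n ω f).1 hf
      apply Wr.ext
      · exact h1
      · funext y
        exact (QuotientGroup.eq_one_iff _).2 (h2 y))

private theorem finΘ_mk {F X S : Type} [Group F] [Nonempty X] (ψ : S → F →* Wr F X)
    (n : ℕ) (ω : ℕ → S) (f : F) :
    finΘ ψ n ω (f : F ⧸ NN ψ ω)
      = Wr.map (QuotientGroup.mk' (NN ψ (shn n ω))) (iter ψ n ω f) := rfl

private theorem finΘ_inj {F X S : Type} [Group F] [Nonempty X] (ψ : S → F →* Wr F X)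
    (n : ℕ) (ω : ℕ → S) : Function.Injective (finΘ ψ n ω) := by
  rw [injective_iff_map_eq_one]
  intro x
  induction x using QuotientGroup.induction_on with
  | H f =>
    intro h
    rw [finΘ_mk] at h
    have h1 : (iter ψ n ω f).perm = 1 := congrArg Wr.perm h
    have h2 : ∀ y, (iter ψ n ω f).sec y ∈ NN ψ (shn n ω) := by
      intro y
      have := congrFun (congrArg Wr.sec h) y
      exact (QuotientGroup.eq_one_iff _).1 this
    exact (QuotientGroup.eq_one_iff _).2 ((mem_NN_level ψ n ω f).2 ⟨h1, h2⟩)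

private theorem fin_branch {F X S : Type} [Group F] (ψ : S → F →* Wr F X) (K : Subgroup F)
    (hbr : ∀ s, ∀ κ : X → F, (∀ x, κ x ∈ K) → ∃ f ∈ K, (ψ s f).perm = 1 ∧ ∀ x, (ψ s f).sec x = κ x)
    (n : ℕ) (ω : ℕ → S) (κ : Wd X n → F) (hκ : ∀ y, κ y ∈ K) :
    ∃ f, (iter ψ n ω f).perm = 1 ∧ ∀ y, (iter ψ n ω f).sec y = κ y := by
  cases n with
  | zero => exact ⟨κ (), rfl, fun _ => rfl⟩
  | succ n =>
    obtain ⟨f, -, h1, h2⟩ := branch_all ψ (fun _ => K) (fun s _ κ hκ => hbr s κ hκ) n ω κ hκ (ω 0)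
    exact ⟨f, h1, h2⟩

/-- `W` symmetric invariant in `F ⧸ N`, `N = NN ψ ω`. If `W ⊆ {1}` trivial. Otherwise some `h ∈ W` acts
nontrivially on some level `n`; by transitivity and invariance every vertex of that level is moved by an
element of `W`. Let `Θ : F ⧸ N →* Wr (F ⧸ NN ψ (shn n ω)) (Wd X n)` be induced by `iter ψ n ω` (injective by
`mem_NN_level`; compare `Tower.Θ` in `Pool/Agent/VW/Tower.lean`, which can be copied, and `Tower.hb`). By
`CL_len` (`Pool/Agent/VW/Disp.lean`, with `π = id`) the elements `g` with `Θ g = base κ`, `κ y ∈ ⁅K_A, K_A⁆`,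
`K_A` the image of `K`, are products of `4 |X| ^ n B` elements of `W` (`CL.map`, `hB`). They form a subgroup of finite
index (kernel of `F ⧸ N → Wr (A ⧸ ⁅K_A, K_A⁆) (Wd X n)`), so `len_of_finiteIndex` applies. -/
theorem finiteWidths_quot {F X S : Type} [Group F] [Finite X] [Nonempty X]
    (ψ : S → F →* Wr F X) (K : Subgroup F) [K.Normal] (hfin : (⁅K, K⁆).FiniteIndex)
    (hbr : ∀ s, ∀ κ : X → F, (∀ x, κ x ∈ K) → ∃ f ∈ K, (ψ s f).perm = 1 ∧ ∀ x, (ψ s f).sec x = κ x)
    (htr : ∀ (ω : ℕ → S) (n : ℕ) (v w : Wd X n), ∃ f, (iter ψ n ω f).perm v = w)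
    {B : ℕ} (hB : ∀ ω, ∀ g ∈ ⁅K, K⁆, CM (NN ψ ω) K B g) (ω : ℕ → S) :
    FiniteWidths (F ⧸ NN ψ ω) := by
  classical
  intro W hs hc
  by_cases hW : ∃ x ∈ W, x ≠ 1
  · obtain ⟨x, hx, hx1⟩ := hW
    obtain ⟨f, rfl⟩ := QuotientGroup.mk_surjective x
    have hf : f ∉ NN ψ ω := fun hf => hx1 ((QuotientGroup.eq_one_iff _).2 hf)
    rw [mem_NN] at hf
    push Not at hf
    obtain ⟨n, hn⟩ := hf
    obtain ⟨y₀, hy₀⟩ : ∃ y₀, (iter ψ n ω f).perm y₀ ≠ y₀ := by
      by_contra hcon
      push Not at hcon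
      exact hn (Equiv.ext hcon)
    set M : Subgroup F := NN ψ (shn n ω) with hM
    set KA : Subgroup (F ⧸ M) := K.map (QuotientGroup.mk' M) with hKA
    have hb : ∀ κ : Wd X n → F ⧸ M, (∀ y, κ y ∈ KA) → ∃ g, finΘ ψ n ω g = base κ := by
      intro κ hκ
      choose κ' hκ' he using hκ
      obtain ⟨f, hf1, hf2⟩ := fin_branch ψ K hbr n ω κ' hκ'
      refine ⟨(f : F ⧸ NN ψ ω), ?_⟩
      rw [finΘ_mk]
      apply Wr.ext
      · exact hf1
      · funext y
        change (((iter ψ n ω f).sec y : F) : F ⧸ M) = κ y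
        rw [hf2 y]
        exact he y
    have hd : ∀ z : Wd X n, ∃ h ∈ W, ∀ y, id y = z → id ((finΘ ψ n ω h).perm y) ≠ z := by
      intro z
      obtain ⟨g, hg⟩ := htr ω n y₀ z
      refine ⟨((g * f * g⁻¹ : F) : F ⧸ NN ψ ω), ?_, ?_⟩
      · have := hc _ hx (g : F ⧸ NN ψ ω)
        simpa using this
      · intro y hy
        change y = z at hy
        rw [finΘ_mk, hy]
        change (iter ψ n ω (g * f * g⁻¹)).perm z ≠ z
        simp only [map_mul, map_inv, Wr.mul_perm, Wr.inv_perm, Equiv.Perm.mul_apply]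
        have h3 : (iter ψ n ω g).perm⁻¹ z = y₀ := by
          rw [← hg]; simp
        rw [h3]
        intro h4
        apply hy₀
        have h5 : (iter ψ n ω g).perm ((iter ψ n ω f).perm y₀) = (iter ψ n ω g).perm y₀ := by
          rw [h4, hg]
        exact (iter ψ n ω g).perm.injective h5
    have hcomm : (⁅K, K⁆).map (QuotientGroup.mk' M) = ⁅KA, KA⁆ := by
      rw [hKA, Subgroup.map_commutator]
    have hKAfin : (⁅KA, KA⁆).FiniteIndex := by
      rw [← hcomm]
      constructor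
      intro h0
      have h2 := Subgroup.index_map_dvd (⁅K, K⁆) (QuotientGroup.mk'_surjective M)
      rw [h0] at h2
      exact hfin.index_ne_zero (Nat.eq_zero_of_zero_dvd h2)
    have hKAn : KA.Normal := by
      rw [hKA]
      exact Subgroup.Normal.map inferInstance _ (QuotientGroup.mk'_surjective _)
    have hfin2 : Finite ((F ⧸ M) ⧸ ⁅KA, KA⁆) := Subgroup.finite_quotient_of_finiteIndex
    let φ : F ⧸ NN ψ ω →* Wr ((F ⧸ M) ⧸ ⁅KA, KA⁆) (Wd X n) :=
      (Wr.map (QuotientGroup.mk' ⁅KA, KA⁆)).comp (finΘ ψ n ω)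
    have hr : Finite φ.range := inferInstance
    have hk : φ.ker.FiniteIndex := Subgroup.finiteIndex_ker φ
    have := Fintype.ofFinite (Wd X n)
    refine len_of_finiteIndex hs φ.ker (4 * Fintype.card (Wd X n) * B) ?_
    intro g hg
    have hg' : φ g = 1 := hg
    have hp : (finΘ ψ n ω g).perm = 1 := congrArg Wr.perm hg'
    have hsec : ∀ y, CL KA B ((finΘ ψ n ω g).sec y) := by
      intro y
      have h1 := congrFun (congrArg Wr.sec hg') y
      have h2 : (finΘ ψ n ω g).sec y ∈ ⁅KA, KA⁆ := (QuotientGroup.eq_one_iff _).1 h1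
      rw [← hcomm] at h2
      obtain ⟨k, hk, hk'⟩ := h2
      obtain ⟨u, hu, huM⟩ := hB (shn n ω) k hk
      have h3 : ((u : F) : F ⧸ M) = ((k : F) : F ⧸ M) := QuotientGroup.eq.2 huM
      have h4 := hu.map (QuotientGroup.mk' M)
      have h5 : QuotientGroup.mk' M u = (finΘ ψ n ω g).sec y := by
        rw [← hk']
        exact h3
      rw [h5] at h4
      exact h4
    exact CL_len (finΘ ψ n ω) (finΘ_inj ψ n ω) KA hb id hs hc hd B _ hsec g (eq_base _ hp)
  · push Not at hW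
    refine ⟨0, fun g hg => ?_⟩
    have h1 : Subgroup.closure W ≤ ⊥ := by
      rw [Subgroup.closure_le]
      intro x hx
      exact hW x hx
    have h2 : g = 1 := (Subgroup.mem_bot).1 (h1 hg)
    rw [h2]
    exact Len.one 0

end Pool.Agent.VX
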