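import Pool.Agent.VX.Defs

/-! Job VX-FolB. Groups of subexponential growth satisfy Følner's condition. -/

namespace Pool.Agent.VX

private def bl {F : Type} [Group F] (S : Finset F) (n : ℕ) : Set F :=
  {g : F | ∃ l : List F, l.length ≤ n ∧ (∀ x ∈ l, x ∈ S ∨ x⁻¹ ∈ S) ∧ l.prod = g}

private theorem bl_finite {F : Type} [Group F] (S : Finset F) (n : ℕ) : (bl S n).Finite := by
  classical
  have hT : ({x : F | x ∈ S ∨ x⁻¹ ∈ S}).Finite := by
    have h1 : ({x : F | x ∈ S ∨ x⁻¹ ∈ S}) ⊆ (S : Set F) ∪ (fun x : F => x⁻¹) '' (S : Set F) := by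
      rintro x (hx | hx)
      · exact Or.inl hx
      · exact Or.inr ⟨x⁻¹, hx, inv_inv x⟩
    exact (S.finite_toSet.union (S.finite_toSet.image _)).subset h1
  induction n with
  | zero =>
    refine (Set.finite_singleton (1 : F)).subset ?_
    rintro g ⟨l, hl, -, rfl⟩
    have : l = [] := List.length_eq_zero_iff.mp (Nat.le_zero.mp hl)
    subst this
    simp
  | succ n ih =>
    refine ((Set.finite_singleton (1 : F)).union (hT.image2 (fun x y => x * y) ih)).subset ?_
    rintro g ⟨l, hl, hx, rfl⟩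
    cases l with
    | nil => left; simp
    | cons a l =>
      right
      refine ⟨a, hx a (by simp), l.prod, ⟨l, by simpa using hl, fun x h => hx x (by simp [h]), rfl⟩, ?_⟩
      simp

private theorem bl_mul {F : Type} [Group F] (S : Finset F) {m n : ℕ} {a b : F}
    (ha : a ∈ bl S m) (hb : b ∈ bl S n) : a * b ∈ bl S (m + n) := by
  obtain ⟨l, h1, h2, rfl⟩ := ha
  obtain ⟨k, h3, h4, rfl⟩ := hb
  refine ⟨l ++ k, by simp; omega, ?_, by simp⟩
  intro x hx
  rcases List.mem_append.mp hx with h | h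
  · exact h2 x h
  · exact h4 x h

private theorem bl_mono {F : Type} [Group F] (S : Finset F) {m n : ℕ} (h : m ≤ n) :
    bl S m ⊆ bl S n := by
  rintro g ⟨l, h1, h2, rfl⟩
  exact ⟨l, h1.trans h, h2, rfl⟩

private theorem one_mem_bl {F : Type} [Group F] (S : Finset F) (n : ℕ) : (1 : F) ∈ bl S n :=
  ⟨[], by simp, by simp, by simp⟩

/-- Balls: `A` is contained in the ball of radius `R`; if `γ(j R + R) ≤ (1 + 1 / n) γ(j R)` failed for every
`j` then `γ(j R) ≥ (1 + 1 / n) ^ j`, exponential growth. -/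
theorem folner_of_subexponential {F : Type} [Group F] (hF : Subexponential F) : Folner F := by
  classical
  obtain ⟨S, hS, hG⟩ := hF
  intro A n
  -- radius
  have hmem : ∀ a : F, ∃ r, a ∈ bl S r := by
    intro a
    have ha : a ∈ Subgroup.closure (S : Set F) := by rw [hS]; trivial
    induction ha using Subgroup.closure_induction with
    | mem x hx => exact ⟨1, [x], by simp, by
        intro y hy
        rw [List.mem_singleton] at hy
        subst hy
        exact Or.inl (by simpa using hx), by simp⟩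
    | one => exact ⟨0, one_mem_bl S 0⟩
    | mul x y _ _ hx hy =>
      obtain ⟨m, hm⟩ := hx
      obtain ⟨k, hk⟩ := hy
      exact ⟨m + k, bl_mul S hm hk⟩
    | inv x _ hx =>
      obtain ⟨m, l, h1, h2, rfl⟩ := hx
      refine ⟨m, (l.map (fun z => z⁻¹)).reverse, by simpa using h1, ?_, by
        rw [List.prod_inv_reverse]⟩
      intro z hz
      rw [List.mem_reverse, List.mem_map] at hz
      obtain ⟨w, hw, rfl⟩ := hz
      rcases h2 w hw with h | h
      · right; simpa using h
      · left; exact h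
  choose r hr using hmem
  obtain ⟨R, hR1, hRA⟩ : ∃ R, 1 ≤ R ∧ ∀ a ∈ A, a ∈ bl S R := by
    refine ⟨A.sup r + 1, by omega, fun a ha => bl_mono S ?_ (hr a)⟩
    have := Finset.le_sup (f := r) ha
    omega
  -- the key inequality
  by_cases hkey : ∃ j, n * ((bl S ((j + 1) * R)).ncard - (bl S (j * R)).ncard) ≤ (bl S (j * R)).ncard
  · obtain ⟨j, hj⟩ := hkey
    refine ⟨(bl_finite S (j * R)).toFinset, ⟨1, by simpa using one_mem_bl S (j * R)⟩, ?_⟩
    intro a ha
    have hcard : (bl_finite S (j * R)).toFinset.card = (bl S (j * R)).ncard :=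
      (Set.ncard_eq_toFinset_card _ (bl_finite S (j * R))).symm
    rw [hcard]
    refine le_trans (Nat.mul_le_mul_left n ?_) hj
    have h1 : ({y : F | y ∈ (bl_finite S (j * R)).toFinset ∧ a * y ∉ (bl_finite S (j * R)).toFinset}).ncard
        ≤ (bl S ((j + 1) * R) \ bl S (j * R)).ncard := by
      refine Set.ncard_le_ncard_of_injOn (fun y => a * y) ?_ ?_
        ((bl_finite S ((j + 1) * R)).subset Set.sdiff_subset)
      · rintro y ⟨hy1, hy2⟩
        rw [Set.Finite.mem_toFinset] at hy1 hy2
        refine ⟨?_, hy2⟩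
        have := bl_mul S (hRA a ha) hy1
        have he : R + j * R = (j + 1) * R := by ring
        rwa [he] at this
      · intro x _ y _ hxy
        exact mul_left_cancel hxy
    refine h1.trans ?_
    have h2 : bl S (j * R) ⊆ bl S ((j + 1) * R) := bl_mono S (Nat.mul_le_mul_right R (Nat.le_succ j))
    rw [Set.ncard_sdiff h2 (bl_finite S (j * R))]
  · exfalso
    push Not at hkey
    have hn : 1 ≤ n := by
      rcases Nat.eq_zero_or_pos n with h | h
      · subst h
        have := hkey 0
        simp at this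
      · exact h
    have hn0 : (0 : ℝ) < n := by exact_mod_cast hn
    have hstep : ∀ j, (1 + 1 / (n : ℝ)) * ((bl S (j * R)).ncard : ℝ) ≤ ((bl S ((j + 1) * R)).ncard : ℝ) := by
      intro j
      have h1 := hkey j
      have h2 : (bl S (j * R)).ncard ≤ (bl S ((j + 1) * R)).ncard :=
        Set.ncard_le_ncard (bl_mono S (Nat.mul_le_mul_right R (Nat.le_succ j))) (bl_finite S _)
      have h3 : ((bl S (j * R)).ncard : ℝ) < (n : ℝ) * (((bl S ((j + 1) * R)).ncard : ℝ) -
          ((bl S (j * R)).ncard : ℝ)) := by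
        rw [← Nat.cast_sub h2]
        exact_mod_cast h1
      have h4 : ((bl S (j * R)).ncard : ℝ) / n ≤ ((bl S ((j + 1) * R)).ncard : ℝ) -
          ((bl S (j * R)).ncard : ℝ) := by
        rw [div_le_iff₀ hn0]
        linarith [h3, mul_comm (n : ℝ) (((bl S ((j + 1) * R)).ncard : ℝ) -
          ((bl S (j * R)).ncard : ℝ))]
      have h5 : (1 + 1 / (n : ℝ)) * ((bl S (j * R)).ncard : ℝ) = ((bl S (j * R)).ncard : ℝ) +
          ((bl S (j * R)).ncard : ℝ) / n := by ring
      rw [h5]
      linarith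
    have hgrow : ∀ j, (1 + 1 / (n : ℝ)) ^ j ≤ ((bl S (j * R)).ncard : ℝ) := by
      intro j
      induction j with
      | zero =>
        have : 0 < (bl S (0 * R)).ncard :=
          (Set.ncard_pos (bl_finite S _)).mpr ⟨1, one_mem_bl S _⟩
        have h1 : (1 : ℝ) ≤ ((bl S (0 * R)).ncard : ℝ) := by exact_mod_cast this
        simpa using h1
      | succ j ih =>
        refine le_trans ?_ (hstep j)
        rw [pow_succ, mul_comm]
        have : (0 : ℝ) ≤ 1 + 1 / (n : ℝ) := by positivity
        exact mul_le_mul_of_nonneg_left ih this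
    -- choose ε
    obtain ⟨ε, hε, hεR⟩ : ∃ ε : ℝ, 0 < ε ∧ (1 + ε) ^ R < 1 + 1 / (n : ℝ) := by
      have hc : Filter.Tendsto (fun x : ℝ => (1 + x) ^ R) (nhdsWithin 0 (Set.Ioi 0)) (nhds ((1 + 0) ^ R)) := by
        apply Filter.Tendsto.mono_left _ nhdsWithin_le_nhds
        exact (Continuous.tendsto (by fun_prop) 0)
      have h1 : ((1 : ℝ) + 0) ^ R < 1 + 1 / (n : ℝ) := by
        have : (0 : ℝ) < 1 / (n : ℝ) := by positivity
        simp only [add_zero, one_pow]
        linarith
      have h2 := (hc.eventually (gt_mem_nhds h1)).and self_mem_nhdsWithin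
      obtain ⟨ε, h3, h4⟩ := h2.exists
      exact ⟨ε, h4, h3⟩
    obtain ⟨N, hN⟩ := hG ε hε
    have hj : N ≤ (N + 1) * R := by nlinarith
    have h1 := hN ((N + 1) * R) hj
    have h2 : (((bl S ((N + 1) * R)).ncard : ℕ) : ℝ) ≤ (1 + ε) ^ ((N + 1) * R) := h1
    have h3 := hgrow (N + 1)
    have h4 : (1 + ε) ^ ((N + 1) * R) < (1 + 1 / (n : ℝ)) ^ (N + 1) := by
      rw [mul_comm, pow_mul]
      exact pow_lt_pow_left₀ hεR (by positivity) (by omega)
    linarith

end Pool.Agent.VX
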