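import Mathlib

/-! Job VX-Num. The two numerical iterations. Mathlib only. -/

namespace Pool.Agent.VX

private def AA (P : ℕ → ℕ → Prop) (α β : ℝ) : Prop := ∀ m : ℕ, ∃ c : ℕ, (c : ℝ) ≤ α * m + β ∧ P m c

private theorem AA.mono {P : ℕ → ℕ → Prop} {α β β' : ℝ} (h : AA P α β) (hb : β ≤ β') : AA P α β' := by
  intro m
  obtain ⟨c, hc, hp⟩ := h m
  exact ⟨c, by linarith, hp⟩

private theorem contr_step (P : ℕ → ℕ → Prop) (c₁ C : ℕ)
    (hstep : ∀ m Q, (∀ k, 2 ≤ k → ∃ c, c ≤ k * Q ∧ P (k * m / 2 + C) c) → P m (c₁ + Q))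
    (α β : ℝ) (hα : 0 ≤ α) (hβ : 0 ≤ β) (h : AA P α β) :
    AA P (α / 2) (c₁ + 1 + (α * C + β) / 2) := by
  intro m
  have hC : (0 : ℝ) ≤ C := Nat.cast_nonneg C
  have hm : (0 : ℝ) ≤ m := Nat.cast_nonneg m
  have hαC : 0 ≤ α * C := mul_nonneg hα hC
  have hαm : 0 ≤ α * m := mul_nonneg hα hm
  set Q : ℕ := ⌈α * m / 2 + (α * C + β) / 2⌉₊ with hQ
  have hQ1 : α * m / 2 + (α * C + β) / 2 ≤ (Q : ℝ) := Nat.le_ceil _
  have hQ2 : (Q : ℝ) < α * m / 2 + (α * C + β) / 2 + 1 := Nat.ceil_lt_add_one (by positivity)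
  refine ⟨c₁ + Q, ?_, hstep m Q ?_⟩
  · push_cast
    linarith
  · intro k hk
    obtain ⟨c, hc, hp⟩ := h (k * m / 2 + C)
    refine ⟨c, ?_, hp⟩
    have hk' : (2 : ℝ) ≤ k := by exact_mod_cast hk
    have h1 : (((k * m / 2 : ℕ)) : ℝ) ≤ k * m / 2 := by
      have := @Nat.cast_div_le ℝ _ _ _ (k * m) 2
      push_cast at this
      exact this
    have h2 : (c : ℝ) ≤ α * (k * m / 2 + C) + β := by
      refine hc.trans ?_
      push_cast
      have := mul_le_mul_of_nonneg_left h1 hα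
      linarith
    have h3 : (c : ℝ) ≤ k * Q := by
      have h4 : (k : ℝ) * (α * m / 2 + (α * C + β) / 2) ≤ k * Q :=
        mul_le_mul_of_nonneg_left hQ1 (by linarith)
      have h5 : α * C + β ≤ k * ((α * C + β) / 2) := by
        have h6 : 0 ≤ α * C + β := by linarith
        nlinarith
      nlinarith
    exact_mod_cast h3

/-- Contracting case. Say `A(α, β)` if for all `m` there is `c ≤ α m + β` (real numbers) with `P m c`. Then
`A(α, β)` implies `A(α / 2, c₁ + 1 + (α C + β) / 2)`: apply `hstep` with `Q = ⌈α m / 2 + (α C + β) / 2⌉`. Start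
from `A(a, 0)`; all `β_j` stay below `β = 2 (c₁ + 1) + a C`; for given `m` take `j` with `a m / 2 ^ j ≤ 1`. -/
theorem num_contr (P : ℕ → ℕ → Prop) (hmono : ∀ m c c', c ≤ c' → P m c → P m c') (a : ℕ)
    (hlin : ∀ m, P m (a * m)) (c₁ C : ℕ)
    (hstep : ∀ m Q, (∀ k, 2 ≤ k → ∃ c, c ≤ k * Q ∧ P (k * m / 2 + C) c) → P m (c₁ + Q)) :
    ∃ B, ∀ m, P m B := by
  have ha : (0 : ℝ) ≤ a := Nat.cast_nonneg a
  have hC : (0 : ℝ) ≤ C := Nat.cast_nonneg C
  have hc : (0 : ℝ) ≤ c₁ := Nat.cast_nonneg c₁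
  have hβ : (0 : ℝ) ≤ 2 * (c₁ + 1) + a * C := by positivity
  have hall : ∀ j : ℕ, AA P ((a : ℝ) / 2 ^ j) (2 * (c₁ + 1) + a * C) := by
    intro j
    induction j with
    | zero =>
      intro m
      refine ⟨a * m, ?_, hlin m⟩
      push_cast
      rw [pow_zero, div_one]
      linarith
    | succ j ih =>
      have h1 := contr_step P c₁ C hstep _ _ (by positivity) hβ ih
      have e : (a : ℝ) / 2 ^ (j + 1) = (a : ℝ) / 2 ^ j / 2 := by
        rw [pow_succ, div_div]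
      rw [e]
      refine h1.mono ?_
      have h2 : (a : ℝ) / 2 ^ j ≤ a := div_le_self ha (one_le_pow₀ (by norm_num))
      have h3 := mul_le_mul_of_nonneg_right h2 hC
      linarith
  refine ⟨2 * (c₁ + 1) + a * C + 1, fun m => ?_⟩
  obtain ⟨j, hj⟩ := pow_unbounded_of_one_lt ((a : ℝ) * m) (show (1 : ℝ) < 2 by norm_num)
  obtain ⟨c, hc', hp⟩ := hall j m
  refine hmono m c _ ?_ hp
  have h2 : (a : ℝ) / 2 ^ j * m ≤ 1 := by
    rw [div_mul_eq_mul_div, div_le_one (by positivity)]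
    exact hj.le
  have h3 : (c : ℝ) ≤ ((2 * (c₁ + 1) + a * C + 1 : ℕ) : ℝ) := by
    push_cast
    linarith
  exact_mod_cast h3

private theorem sub_step (P : ℕ → ℕ → Prop) (c₁ C : ℕ)
    (hstep : ∀ m Q, (∀ k, 2 ≤ k → ∃ c, c ≤ k * Q ∧ P (k * (m + C)) c) → P m (c₁ + Q))
    (α β : ℝ) (hα : 0 ≤ α) (hβ : 0 ≤ β) (h : AA P α β) :
    AA P α (c₁ + 1 + α * C + β / 2) := by
  intro m
  have hC : (0 : ℝ) ≤ C := Nat.cast_nonneg C
  have hm : (0 : ℝ) ≤ m := Nat.cast_nonneg m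
  have hαC : 0 ≤ α * C := mul_nonneg hα hC
  have hαm : 0 ≤ α * m := mul_nonneg hα hm
  set Q : ℕ := ⌈α * m + α * C + β / 2⌉₊ with hQ
  have hQ1 : α * m + α * C + β / 2 ≤ (Q : ℝ) := Nat.le_ceil _
  have hQ2 : (Q : ℝ) < α * m + α * C + β / 2 + 1 := Nat.ceil_lt_add_one (by positivity)
  refine ⟨c₁ + Q, ?_, hstep m Q ?_⟩
  · push_cast
    linarith
  · intro k hk
    obtain ⟨c, hc, hp⟩ := h (k * (m + C))
    refine ⟨c, ?_, hp⟩
    have hk' : (2 : ℝ) ≤ k := by exact_mod_cast hk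
    push_cast at hc
    have h3 : (c : ℝ) ≤ k * Q := by
      have h4 : (k : ℝ) * (α * m + α * C + β / 2) ≤ k * Q :=
        mul_le_mul_of_nonneg_left hQ1 (by linarith)
      have h5 : β ≤ k * (β / 2) := by nlinarith
      nlinarith
    exact_mod_cast h3

/-- Sublinear case. `A(α, β)` implies `A(α, c₁ + 1 + α C + β / 2)`: `Q = ⌈α m + α C + β / 2⌉`. Hence
`A(6 / r, 2 (c₁ + 1 + 6 C / r) + 1)` for every `r ≥ 1`; for given `m` take `r ≥ 6 (m + 1) (C + 1)`: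
`B = 2 c₁ + 6` works. -/
theorem num_sub (P : ℕ → ℕ → Prop) (hmono : ∀ m c c', c ≤ c' → P m c → P m c')
    (hsub : ∀ r, 1 ≤ r → ∃ C', ∀ m, P m (6 * (m / r) + C')) (c₁ C : ℕ)
    (hstep : ∀ m Q, (∀ k, 2 ≤ k → ∃ c, c ≤ k * Q ∧ P (k * (m + C)) c) → P m (c₁ + Q)) :
    ∃ B, ∀ m, P m B := by
  refine ⟨2 * c₁ + 6, fun m => ?_⟩
  have hC : (0 : ℝ) ≤ C := Nat.cast_nonneg C
  have hm : (0 : ℝ) ≤ m := Nat.cast_nonneg m
  have hc : (0 : ℝ) ≤ c₁ := Nat.cast_nonneg c₁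
  obtain ⟨C', hC'⟩ := hsub (6 * (m + 1) * (C + 1)) (by nlinarith [Nat.zero_le m, Nat.zero_le C])
  set r : ℕ := 6 * (m + 1) * (C + 1) with hr
  have hr0 : (0 : ℝ) < r := by
    rw [hr]
    push_cast
    positivity
  set α : ℝ := 6 / r with hα
  have hα0 : 0 ≤ α := by positivity
  have hαm : α * m ≤ 1 := by
    rw [hα, div_mul_eq_mul_div, div_le_one hr0, hr]
    push_cast
    nlinarith [mul_nonneg hm hC]
  have hαC : α * C ≤ 1 := by
    rw [hα, div_mul_eq_mul_div, div_le_one hr0, hr]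
    push_cast
    nlinarith [mul_nonneg hm hC]
  have hall : ∀ j : ℕ, AA P α (2 * (c₁ + 1 + α * C) + C' / 2 ^ j) := by
    intro j
    induction j with
    | zero =>
      intro n
      refine ⟨6 * (n / r) + C', ?_, hC' n⟩
      have h1 : (((n / r : ℕ)) : ℝ) ≤ n / r := Nat.cast_div_le
      push_cast
      rw [pow_zero, div_one, hα]
      have h2 : (6 : ℝ) / r * n = 6 * (n / r) := by ring
      rw [h2]
      have h3 : (0 : ℝ) ≤ 6 / r * C := by positivity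
      linarith
    | succ j ih =>
      have h1 := sub_step P c₁ C hstep _ _ hα0 (by positivity) ih
      refine h1.mono ?_
      rw [pow_succ]
      have h2 : (C' : ℝ) / (2 ^ j * 2) = C' / 2 ^ j / 2 := by rw [div_div]
      rw [h2]
      linarith
  obtain ⟨j, hj⟩ := pow_unbounded_of_one_lt (C' : ℝ) (show (1 : ℝ) < 2 by norm_num)
  obtain ⟨c, hc', hp⟩ := hall j m
  refine hmono m c _ ?_ hp
  have h2 : (C' : ℝ) / 2 ^ j ≤ 1 := by
    rw [div_le_one (by positivity)]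
    exact hj.le
  have h3 : (c : ℝ) ≤ ((2 * c₁ + 6 : ℕ) : ℝ) := by
    push_cast
    linarith
  exact_mod_cast h3

end Pool.Agent.VX
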