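import Pool.Agent.VX.Shrink

/-! Job VX-ShrC. Contracting recursions shrink. -/

namespace Pool.Agent.VX

open Pool.Agent.VW

private theorem blocks {F X S : Type} [Group F] (ψ : S → F →* Wr F X) {T : Set F} (r M N : ℕ) (hr : 0 < r)
    (ω : ℕ → S) (h : ∀ f, Len T r f → ∀ y : Wd X N, Len T M ((iter ψ N ω f).sec y)) :
    ∀ (m : ℕ) (l : List F), l.length ≤ m → (∀ x ∈ l, x ∈ T) → ∀ y : Wd X N,
      Len T ((m / r + 1) * M) ((iter ψ N ω l.prod).sec y) := by
  intro m
  induction m using Nat.strong_induction_on with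
  | _ m ih =>
    intro l hl hlT y
    by_cases hlr : l.length ≤ r
    · exact (h l.prod ⟨l, hlr, hlT, rfl⟩ y).mono (Nat.le_mul_of_pos_left _ (Nat.succ_pos _))
    · have hrm : r < m := by omega
      have h1 : l.prod = (l.take r).prod * (l.drop r).prod := by
        rw [← List.prod_append, List.take_append_drop]
      have h2 := ih (m - r) (by omega) (l.drop r) (by rw [List.length_drop]; omega)
        (fun x hx => hlT x (List.mem_of_mem_drop hx)) y
      have h3 := h (l.take r).prod ⟨l.take r, by rw [List.length_take]; omega,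
        fun x hx => hlT x (List.mem_of_mem_take hx), rfl⟩ ((iter ψ N ω (l.drop r).prod).perm y)
      have h4 := h3.mul h2
      have h5 : M + ((m - r) / r + 1) * M = (m / r + 1) * M := by
        have h6 : m / r = (m - r) / r + 1 := Nat.div_eq_sub_div hr hrm.le
        rw [h6]
        ring
      rw [h5] at h4
      rw [h1, map_mul]
      exact h4

/-- Contracting recursions. Let `r = 2 ι M + 1` where all elements of the nucleus have length at most `M`;
at a level `N` deeper than `n₀` for each of the finitely many products of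
at most `r` elements of `T` (`Len.finite`), cut `g` into `m / r + 1` blocks: `ℓ y = (m / r + 1) M`. -/
theorem shrinks_of_contracting {F X S : Type} [Group F] [Finite X] (ψ : S → F →* Wr F X)
    (hψ : Contracting ψ) {T : Set F} (hTf : T.Finite) (hTs : ∀ t ∈ T, t⁻¹ ∈ T)
    (hT : Subgroup.closure T = ⊤) : Shrinks ψ T := by
  obtain ⟨nuc, hfin, hc⟩ := hψ
  choose n₀ hn₀ using hc
  have := hfin.to_subtype
  obtain ⟨M, hM⟩ := uniform_len hTs (fun x : nuc => (x : F)) (fun x => by rw [hT]; trivial)
  intro ι N₀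
  have hB := Len.finite hTf (2 * ι * M + 1)
  refine ⟨max N₀ (hB.toFinset.sup n₀), le_max_left _ _, ?_⟩
  have hN : hB.toFinset.sup n₀ ≤ max N₀ (hB.toFinset.sup n₀) := le_max_right _ _
  generalize max N₀ (hB.toFinset.sup n₀) = N at hN
  refine ⟨Nat.card (Wd X N) * (2 * ι * M), ?_⟩
  intro ω m g hg
  obtain ⟨l, hl, hlT, rfl⟩ := hg
  refine ⟨fun _ => (m / (2 * ι * M + 1) + 1) * M, fun y => ?_, fun J => ?_⟩
  · refine blocks ψ (2 * ι * M + 1) M N (Nat.succ_pos _) ω (fun f hf y => ?_) m l hl hlT y
    have h1 : n₀ f ≤ N := (Finset.le_sup (f := n₀) (hB.mem_toFinset.2 hf)).trans hN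
    exact hM ⟨_, hn₀ f N h1 ω y⟩
  · have := Fintype.ofFinite (Wd X N)
    have h1 : J.card ≤ Nat.card (Wd X N) := by
      rw [Nat.card_eq_fintype_card]
      exact Finset.card_le_univ J
    rw [Finset.sum_const, smul_eq_mul]
    have h2 : (2 * ι * M) * (m / (2 * ι * M + 1)) ≤ m := by
      refine le_trans (Nat.mul_le_mul_right _ (Nat.le_succ _)) ?_
      exact Nat.mul_div_le m (2 * ι * M + 1)
    calc 2 * ι * (J.card * ((m / (2 * ι * M + 1) + 1) * M))
        = J.card * ((2 * ι * M) * (m / (2 * ι * M + 1)) + 2 * ι * M) := by ring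
      _ ≤ Nat.card (Wd X N) * (m + 2 * ι * M) :=
          Nat.mul_le_mul h1 (Nat.add_le_add_right h2 _)
      _ = Nat.card (Wd X N) * m + Nat.card (Wd X N) * (2 * ι * M) := by ring

end Pool.Agent.VX
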