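import Pool.Agent.VX.Shrink

/-! Job VX-ShrR. Automata in which the trivial state is reachable from every state shrink. -/

namespace Pool.Agent.VX

open Pool.Agent.VW

open Classical in
private noncomputable instance fw (X : Type) [Fintype X] : ∀ n, Fintype (Wd X n)
  | 0 => inferInstanceAs (Fintype Unit)
  | n + 1 => @instFintypeProd X (Wd X n) _ (fw X n)

open Classical in
private noncomputable def cnt {F X S : Type} [Group F] [Fintype X] (ψ : S → F →* Wr F X) (k : ℕ)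
    (ω : ℕ → S) (f : F) : ℕ :=
  ∑ y : Wd X k, if (iter ψ k ω f).sec y = 1 then 0 else 1

private theorem cnt_succ {F X S : Type} [Group F] [Fintype X] (ψ : S → F →* Wr F X) (k : ℕ)
    (ω : ℕ → S) (f : F) :
    cnt ψ (k + 1) ω f = ∑ x, cnt ψ k (sh ω) ((ψ (ω 0) f).sec x) := by
  classical
  unfold cnt
  exact Fintype.sum_prod_type _

private theorem cnt_split {F X S : Type} [Group F] [Fintype X] (ψ : S → F →* Wr F X) :
    ∀ (n k : ℕ) (ω : ℕ → S) (f : F),
      cnt ψ (n + k) ω f = ∑ y : Wd X n, cnt ψ k (shn n ω) ((iter ψ n ω f).sec y) := by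
  intro n
  induction n with
  | zero =>
    intro k ω f
    rw [Nat.zero_add]
    exact (Fintype.sum_unique (ι := Unit) (fun _ => cnt ψ k ω f)).symm
  | succ n ih =>
    intro k ω f
    have e : n + 1 + k = (n + k) + 1 := by omega
    rw [e, cnt_succ, Finset.sum_congr rfl fun x _ => ih k (sh ω) ((ψ (ω 0) f).sec x)]
    exact (Fintype.sum_prod_type (fun v : X × Wd X n => cnt ψ k (shn (n + 1) ω)
      ((iter ψ (n + 1) ω f).sec v))).symm

private theorem cnt_one {F X S : Type} [Group F] [Fintype X] (ψ : S → F →* Wr F X) (k : ℕ)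
    (ω : ℕ → S) : cnt ψ k ω (1 : F) = 0 := by
  unfold cnt
  refine Finset.sum_eq_zero fun y _ => ?_
  rw [map_one, Wr.one_sec, if_pos rfl]

private theorem sec_mem {F X S : Type} [Group F] (ψ : S → F →* Wr F X) {T : Set F}
    (hT : ∀ s, ∀ t ∈ T, ∀ x, (ψ s t).sec x ∈ T) :
    ∀ (n : ℕ) (ω : ℕ → S) (t : F), t ∈ T → ∀ y : Wd X n, (iter ψ n ω t).sec y ∈ T := by
  intro n
  induction n with
  | zero =>
    intro ω t ht y
    exact ht
  | succ n ih =>
    rintro ω t ht ⟨x, w⟩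
    rw [iter_succ_sec]
    exact ih (sh ω) _ (hT _ t ht x) w

private theorem ext_one {F X S : Type} [Group F] [Nonempty X] (ψ : S → F →* Wr F X) :
    ∀ (n : ℕ) (ω : ℕ → S) (f : F), (∃ y : Wd X n, (iter ψ n ω f).sec y = 1) →
      ∃ y : Wd X (n + 1), (iter ψ (n + 1) ω f).sec y = 1 := by
  intro n
  induction n with
  | zero =>
    rintro ω f ⟨y, hy⟩
    have hf : f = 1 := hy
    obtain ⟨x⟩ : Nonempty X := inferInstance
    refine ⟨(x, ()), ?_⟩
    rw [hf, map_one]
    rfl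
  | succ n ih =>
    rintro ω f ⟨⟨x, w⟩, hy⟩
    rw [iter_succ_sec] at hy
    obtain ⟨w', hw'⟩ := ih (sh ω) _ ⟨w, hy⟩
    refine ⟨(x, w'), ?_⟩
    rw [iter_succ_sec]
    exact hw'

private theorem card_wd (X : Type) [Fintype X] : ∀ n, Fintype.card (Wd X n) = Fintype.card X ^ n
  | 0 => rfl
  | n + 1 => by
    have h : Fintype.card (Wd X (n + 1)) = Fintype.card X * Fintype.card (Wd X n) :=
      Fintype.card_prod X (Wd X n)
    rw [h, card_wd X n, pow_succ, Nat.mul_comm]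

private theorem cnt_bound {F X S : Type} [Group F] [Fintype X] (ψ : S → F →* Wr F X) {T : Set F}
    (hT : ∀ s, ∀ t ∈ T, ∀ x, (ψ s t).sec x ∈ T) (n : ℕ)
    (hn : ∀ (ω : ℕ → S), ∀ t ∈ T, ∃ y : Wd X n, (iter ψ n ω t).sec y = 1) :
    ∀ (j : ℕ) (ω : ℕ → S), ∀ t ∈ T, cnt ψ (n * j) ω t ≤ (Fintype.card X ^ n - 1) ^ j := by
  classical
  intro j
  induction j with
  | zero =>
    intro ω t ht
    rw [Nat.mul_zero, pow_zero]
    unfold cnt
    refine (Finset.sum_le_card_nsmul _ _ 1 fun y _ => ?_).trans ?_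
    · split_ifs
      · exact Nat.zero_le _
      · exact le_rfl
    · rw [Finset.card_univ, card_wd, pow_zero, smul_eq_mul, Nat.mul_one]
  | succ j ih =>
    intro ω t ht
    have e : n * (j + 1) = n + n * j := by ring
    rw [e, cnt_split]
    obtain ⟨y0, hy0⟩ := hn ω t ht
    rw [← Finset.add_sum_erase _ _ (Finset.mem_univ y0), hy0, cnt_one, Nat.zero_add]
    refine (Finset.sum_le_card_nsmul _ _ ((Fintype.card X ^ n - 1) ^ j) fun y _ =>
      ih _ _ (sec_mem ψ hT n ω t ht y)).trans ?_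
    rw [Finset.card_erase_of_mem (Finset.mem_univ y0), Finset.card_univ, card_wd, smul_eq_mul,
      pow_succ, Nat.mul_comm]

private theorem num (a j : ℕ) : a ^ j * (a + j) ≤ (a + 1) ^ j * a := by
  induction j with
  | zero => simp
  | succ j ih =>
    have h1 : a ^ j ≤ (a + 1) ^ j := Nat.pow_le_pow_left (Nat.le_succ a) j
    have h2 := Nat.mul_le_mul_right a ih
    have h3 := Nat.mul_le_mul_right a h1
    have e1 : a ^ (j + 1) * (a + (j + 1)) = a ^ j * (a + j) * a + a ^ j * a := by ring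
    have e2 : (a + 1) ^ (j + 1) * a = (a + 1) ^ j * a * a + (a + 1) ^ j * a := by ring
    rw [e1, e2]
    exact Nat.add_le_add h2 h3

private theorem exists_j (a i N : ℕ) : ∃ j, N ≤ j ∧ 2 * i * a ^ j ≤ (a + 1) ^ j := by
  refine ⟨N + 2 * i * a + 1, by omega, ?_⟩
  rcases Nat.eq_zero_or_pos a with ha | ha
  · rw [ha, pow_succ, Nat.mul_zero, Nat.mul_zero]
    exact Nat.zero_le _
  · have h1 := num a (N + 2 * i * a + 1)
    refine Nat.le_of_mul_le_mul_right (le_trans ?_ h1) ha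
    have h2 : 2 * i * a ≤ a + (N + 2 * i * a + 1) := by omega
    calc 2 * i * a ^ (N + 2 * i * a + 1) * a = a ^ (N + 2 * i * a + 1) * (2 * i * a) := by ring
      _ ≤ _ := Nat.mul_le_mul_left _ h2

private theorem exists_len {F X S : Type} [Group F] [Fintype X] (ψ : S → F →* Wr F X) {T : Set F}
    (hT : ∀ s, ∀ t ∈ T, ∀ x, (ψ s t).sec x ∈ T) (k : ℕ) (ω : ℕ → S) (B : ℕ)
    (hB : ∀ t ∈ T, cnt ψ k ω t ≤ B) (l : List F) (hl : ∀ x ∈ l, x ∈ T) :
    ∃ ℓ : Wd X k → ℕ, (∀ y, Len T (ℓ y) ((iter ψ k ω l.prod).sec y)) ∧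
      ∑ y, ℓ y ≤ l.length * B := by
  classical
  induction l with
  | nil =>
    refine ⟨fun _ => 0, fun y => ?_, ?_⟩
    · rw [List.prod_nil, map_one]
      exact Len.one 0
    · rw [Finset.sum_const_zero]
      exact Nat.zero_le _
  | cons a l ih =>
    obtain ⟨ℓ, h1, h2⟩ := ih fun x hx => hl x (List.mem_cons_of_mem _ hx)
    have ha : a ∈ T := hl a List.mem_cons_self
    refine ⟨fun y => (if (iter ψ k ω a).sec ((iter ψ k ω l.prod).perm y) = 1 then 0 else 1) + ℓ y,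
      fun y => ?_, ?_⟩
    · have e : (iter ψ k ω (a :: l).prod).sec y =
          (iter ψ k ω a).sec ((iter ψ k ω l.prod).perm y) * (iter ψ k ω l.prod).sec y := by
        rw [List.prod_cons, map_mul]
        rfl
      rw [e]
      refine Len.mul ?_ (h1 y)
      split_ifs with h
      · rw [h]
        exact Len.one 0
      · exact Len.of_mem (sec_mem ψ hT k ω a ha _)
    · rw [Finset.sum_add_distrib, List.length_cons, Nat.add_mul, Nat.one_mul, Nat.add_comm]
      refine Nat.add_le_add h2 (le_trans (le_of_eq ?_) (hB a ha))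
      exact Equiv.sum_comp (iter ψ k ω l.prod).perm
        (fun y => if (iter ψ k ω a).sec y = 1 then 0 else 1)

/-- Automata in which the trivial state is reachable from every state. -/
theorem shrinks_of_reachesOne {F X S : Type} [Group F] [Finite X] [Nonempty X]
    (ψ : S → F →* Wr F X) {T : Set F} (hT : Automaton ψ T) (hR : ReachesOne ψ T) :
    Shrinks ψ T := by
  classical
  have : Fintype X := Fintype.ofFinite X
  obtain ⟨-, -, hT3⟩ := hT
  obtain ⟨n, hn⟩ := hR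
  have hn1 : ∀ (ω : ℕ → S), ∀ t ∈ T, ∃ y : Wd X (n + 1), (iter ψ (n + 1) ω t).sec y = 1 :=
    fun ω t ht => ext_one ψ n ω t (hn ω t ht)
  intro ι N₀
  obtain ⟨a, ha⟩ : ∃ a, Fintype.card X ^ (n + 1) = a + 1 :=
    ⟨Fintype.card X ^ (n + 1) - 1, (Nat.succ_pred_eq_of_pos (pow_pos Fintype.card_pos _)).symm⟩
  obtain ⟨j, hj1, hj2⟩ := exists_j a ι N₀
  refine ⟨(n + 1) * j, hj1.trans (Nat.le_mul_of_pos_left j (Nat.succ_pos n)), 0, ?_⟩
  rintro ω m g ⟨l, hl1, hl2, rfl⟩
  have hB : ∀ t ∈ T, cnt ψ ((n + 1) * j) ω t ≤ a ^ j := by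
    intro t ht
    have h := cnt_bound ψ hT3 (n + 1) hn1 j ω t ht
    rwa [ha, Nat.add_sub_cancel] at h
  obtain ⟨ℓ, h1, h2⟩ := exists_len ψ hT3 _ ω (a ^ j) hB l hl2
  refine ⟨ℓ, h1, fun J => ?_⟩
  have hc : Nat.card (Wd X ((n + 1) * j)) = (a + 1) ^ j := by
    rw [Nat.card_eq_fintype_card, card_wd, pow_mul, ha]
  have h3 : ∑ y ∈ J, ℓ y ≤ ∑ y, ℓ y :=
    Finset.sum_le_sum_of_subset (Finset.subset_univ J)
  calc 2 * ι * ∑ y ∈ J, ℓ y ≤ 2 * ι * (m * a ^ j) :=
        Nat.mul_le_mul_left _ ((h3.trans h2).trans (Nat.mul_le_mul_right _ hl1))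
    _ = 2 * ι * a ^ j * m := by ring
    _ ≤ (a + 1) ^ j * m := Nat.mul_le_mul_right _ hj2
    _ = Nat.card (Wd X ((n + 1) * j)) * m + 0 := by rw [hc]; rfl

end Pool.Agent.VX
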