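import Pool.Agent.VX.Schreier

/-! Job VX-Sub. Sublinear bound for the number of commutators. -/

namespace Pool.Agent.VX

open Pool.Agent.VW
open scoped commutatorElement

/-- cutting a word into blocks of length `r` -/
private theorem sub_cut {F : Type} [Group F] (Q : Set F) (r : ℕ) (hr : 1 ≤ r) :
    ∀ (n : ℕ) (l : List F), l.length = n → (∀ x ∈ l, x ∈ Q) →
      ∃ L : List F, L.length ≤ n / r + 1 ∧ (∀ x ∈ L, Len Q r x) ∧ L.prod = l.prod := by
  intro n
  induction n using Nat.strong_induction_on with
  | _ n ih =>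
    intro l hl hQ
    by_cases hn : n < r
    · refine ⟨[l.prod], by simp, ?_, by simp⟩
      intro x hx
      rw [List.mem_singleton] at hx
      rw [hx]
      exact ⟨l, by omega, hQ, rfl⟩
    · have hn' : r ≤ n := not_lt.1 hn
      obtain ⟨L, h1, h2, h3⟩ := ih (n - r) (by omega) (l.drop r) (by rw [List.length_drop, hl])
        (fun x hx => hQ x (List.mem_of_mem_drop hx))
      refine ⟨(l.take r).prod :: L, ?_, ?_, ?_⟩
      · rw [List.length_cons]
        have h4 : n / r = (n - r) / r + 1 := by
          rw [Nat.div_eq_sub_div (by omega) hn']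
        omega
      · intro x hx
        rw [List.mem_cons] at hx
        rcases hx with hx | hx
        · rw [hx]
          exact ⟨l.take r, List.length_take_le r l, fun y hy => hQ y (List.mem_of_mem_take hy), rfl⟩
        · exact h2 x hx
      · rw [List.prod_cons, h3, ← List.prod_append, List.take_append_drop]

/-- powers: division with remainder -/
private theorem sub_pow {F : Type} [Group F] {K : Subgroup F} {β : F} {n c : ℕ} (hn : 1 ≤ n)
    (h1 : CL K (5 * n) (β ^ n)) (h2 : CL K c β) (k : ℕ) : CL K (5 * k + n * c) (β ^ k) := by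
  have h3 : β ^ k = (β ^ n) ^ (k / n) * β ^ (k % n) := by
    rw [← pow_mul, ← pow_add, Nat.div_add_mod]
  rw [h3]
  refine CL.mono ?_ ((CL.pow h1 (k / n)).mul (CL.pow h2 (k % n)))
  have h4 : k / n * (5 * n) ≤ 5 * k := by
    have := Nat.div_mul_le_self k n
    calc k / n * (5 * n) = 5 * (k / n * n) := by ring
      _ ≤ 5 * k := Nat.mul_le_mul_left 5 this
  have h5 : k % n * c ≤ n * c := Nat.mul_le_mul_right c (Nat.mod_lt k hn).le
  omega

/-- reordering a list with members in a finite set -/
private theorem sub_sort {F : Type} [Group F] (K : Subgroup F)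
    (hZ : ∀ h ∈ ⁅K, K⁆, ∃ n, 1 ≤ n ∧ CL K (5 * n) (h ^ n)) :
    ∀ bs : List F, (∀ x ∈ bs, x ∈ ⁅K, K⁆) → ∃ C, ∀ L : List F, (∀ x ∈ L, x ∈ bs) →
      ∃ L' : List F, L.Perm L' ∧ CL K (5 * L.length + C) L'.prod := by
  classical
  intro bs
  induction bs with
  | nil =>
    intro _
    refine ⟨0, fun L hL => ⟨[], ?_, ?_⟩⟩
    · have : L = [] := by
        cases L with
        | nil => rfl
        | cons x t => exact absurd (hL x (by simp)) (by simp)
      rw [this]
    · rw [List.prod_nil]
      exact CL.one _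
  | cons b bs ih =>
    intro hbs
    obtain ⟨C, hC⟩ := ih (fun x hx => hbs x (by simp [hx]))
    obtain ⟨n, hn, hnb⟩ := hZ b (hbs b (by simp))
    obtain ⟨c, hc⟩ := CL.exists_of_mem (hbs b (by simp))
    refine ⟨C + n * c, fun L hL => ?_⟩
    obtain ⟨L', h1, h2⟩ := hC (L.filter (fun x => !decide (x = b))) (by
      intro x hx
      rw [List.mem_filter] at hx
      have h3 := hL x hx.1
      rw [List.mem_cons] at h3
      rcases h3 with h3 | h3
      · exfalso
        have := hx.2
        simp [h3] at this
      · exact h3)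
    refine ⟨L.filter (fun x => decide (x = b)) ++ L', ?_, ?_⟩
    · refine (List.filter_append_perm (fun x => decide (x = b)) L).symm.trans ?_
      exact List.Perm.append_left _ h1
    · rw [List.prod_append]
      have h3 : L.filter (fun x => decide (x = b)) =
          List.replicate (L.filter (fun x => decide (x = b))).length b := by
        rw [List.eq_replicate_iff]
        refine ⟨rfl, fun x hx => ?_⟩
        rw [List.mem_filter] at hx
        simpa using hx.2
      have h4 : (L.filter (fun x => decide (x = b))).prod =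
          b ^ (L.filter (fun x => decide (x = b))).length := by
        rw [h3, List.prod_replicate, ← h3]
      rw [h4]
      refine CL.mono ?_ ((sub_pow hn hnb hc (L.filter (fun x => decide (x = b))).length).mul h2)
      have h5 := (List.filter_append_perm (fun x => decide (x = b)) L).length_eq
      rw [List.length_append] at h5
      omega

/-- Sublinear bound, if every element of `[K,K]` has a power `h ^ n` (`n ≥ 1`) which is a product of `5 n`
commutators. `g` is a product of `m` elements of the finite set `Q ⊆ [K,K]` (`schreier`); cut it into at most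
`m / r + 1` blocks, elements of the finite set `B = {β | Len Q r β}` (`Len.finite`); reorder them (`CL.perm`,
`m / r + 1` commutators): `∏_{β ∈ B} β ^ {m_β}`, `∑ m_β ≤ m / r + 1`; `β ^ {m_β}` costs at most
`5 m_β + n_β c_β` (division with remainder of `m_β` by `n_β`). -/
theorem sublinear_bound {F : Type} [Group F] (K : Subgroup F) (hfin : (⁅K, K⁆).FiniteIndex)
    {T : Set F} (hT : T.Finite)
    (hZ : ∀ h ∈ ⁅K, K⁆, ∃ n, 1 ≤ n ∧ CL K (5 * n) (h ^ n)) (r : ℕ) (hr : 1 ≤ r) :
    ∃ C, ∀ m g, g ∈ ⁅K, K⁆ → Len T m g → CL K (6 * (m / r) + C) g := by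
  obtain ⟨Q, hQ1, hQ2, hQ3⟩ := schreier ⁅K, K⁆ hT
  have hB := Len.finite hQ1 r
  have hBD : ∀ x ∈ hB.toFinset.toList, x ∈ ⁅K, K⁆ := by
    intro x hx
    rw [Finset.mem_toList, Set.Finite.mem_toFinset] at hx
    obtain ⟨l, _, hl, rfl⟩ := hx
    exact list_prod_mem (fun y hy => hQ2 (hl y hy))
  obtain ⟨C, hC⟩ := sub_sort K hZ hB.toFinset.toList hBD
  refine ⟨C + 6, fun m g hg hm => ?_⟩
  obtain ⟨l, hl1, hl2, rfl⟩ := hQ3 m g hg hm
  obtain ⟨L, h1, h2, h3⟩ := sub_cut Q r hr l.length l rfl hl2
  obtain ⟨L', h4, h5⟩ := hC L (fun x hx => by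
    rw [Finset.mem_toList, Set.Finite.mem_toFinset]
    exact h2 x hx)
  have hDK : ⁅K, K⁆ ≤ K := by
    rw [Subgroup.commutator_le]
    intro a ha b hb
    rw [commutatorElement_def]
    exact K.mul_mem (K.mul_mem (K.mul_mem ha hb) (K.inv_mem ha)) (K.inv_mem hb)
  have h6 := CL.perm (K := K) h4 (fun x hx => hDK (hBD x (by
    rw [Finset.mem_toList, Set.Finite.mem_toFinset]
    exact h2 x hx)))
  have h7 := h6.mul h5
  rw [inv_mul_cancel_right, h3] at h7
  refine CL.mono ?_ h7
  have h8 : l.length / r ≤ m / r := Nat.div_le_div_right hl1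
  omega

end Pool.Agent.VX
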