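import Pool.Agent.VX.Pow

/-! Job VX-Zed. Powers with few commutators, for a subgroup of an amenable or torsion group. -/

namespace Pool.Agent.VX

open Pool.Agent.VW
open scoped commutatorElement

/-- lift `CL K c u` to the group `K` -/
private theorem CL_lift {F : Type} [Group F] (K : Subgroup F) : ∀ {c : ℕ} {u : F}, CL K c u →
    ∃ v : K, (v : F) = u ∧ CL (⊤ : Subgroup K) c v
  | 0, u, h => by
      have h' : u = 1 := h
      exact ⟨1, by rw [h']; rfl, CL.one 0⟩
  | c + 1, u, h => by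
      obtain ⟨u', a, b, ha, hb, hu', rfl⟩ := h
      obtain ⟨v', hv', hv⟩ := CL_lift K hu'
      refine ⟨v' * ⁅(⟨a, ha⟩ : K), (⟨b, hb⟩ : K)⁆, ?_, v', ⟨a, ha⟩, ⟨b, hb⟩,
        Subgroup.mem_top _, Subgroup.mem_top _, hv, rfl⟩
      rw [commutatorElement_def, commutatorElement_def, Subgroup.coe_mul, hv']
      rfl

/-- `Folner.subgroup`, `exists_pow_of_folner` in the group `K` (lift `CL K c h` to the group `K`), and
`CL.map` along `K.subtype` (`Subgroup.map_top_eq_range`-type rewriting: `(⊤ : Subgroup K).map K.subtype = K`). -/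
theorem pow_of_folner {F : Type} [Group F] (hF : Folner F) (K : Subgroup F) :
    ∀ h ∈ ⁅K, K⁆, ∃ n, 1 ≤ n ∧ CL K (5 * n) (h ^ n) := by
  intro h hh
  obtain ⟨c, hc⟩ := CL.exists_of_mem hh
  obtain ⟨v, hv, hvc⟩ := CL_lift K hc
  obtain ⟨n, hn, hn'⟩ := exists_pow_of_folner (hF.subgroup K) hvc
  refine ⟨n, hn, ?_⟩
  have h1 := CL.map K.subtype hn'
  have h2 : (⊤ : Subgroup K).map K.subtype = K := by
    rw [← MonoidHom.range_eq_map, Subgroup.range_subtype]
  rw [h2, map_pow, Subgroup.subtype_apply, hv] at h1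
  exact h1

theorem pow_of_torsion {F : Type} [Group F] (hF : Monoid.IsTorsion F) (K : Subgroup F) :
    ∀ h ∈ ⁅K, K⁆, ∃ n, 1 ≤ n ∧ CL K (5 * n) (h ^ n) := by
  intro h _
  obtain ⟨n, hn, hn'⟩ := (isOfFinOrder_iff_pow_eq_one).1 (hF h)
  exact ⟨n, hn, by rw [hn']; exact CL.one _⟩

end Pool.Agent.VX
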