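import Pool.Agent.VX.Reps
import Pool.Agent.VX.Sub
import Pool.Agent.VX.Num
import Pool.Agent.VX.ShrC
import Pool.Agent.VX.ShrR
import Pool.Agent.VX.Zed
import Pool.Agent.VX.FolB

/-! Assembly: uniformly bounded commutator width. -/

namespace Pool.Agent.VX

open Pool.Agent.VW
open scoped commutatorElement

section

variable {F X S : Type} [Group F]

/-- the recursion iterated `n` times along `ω` is a level -/
noncomputable def lvl [Nonempty X] (ψ : S → F →* Wr F X) (K : Subgroup F)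
    (hbr : ∀ s, ∀ κ : X → F, (∀ x, κ x ∈ K) → ∃ f ∈ K, (ψ s f).perm = 1 ∧ ∀ x, (ψ s f).sec x = κ x)
    (ω : ℕ → S) (n : ℕ) : Lvl F (Wd X n) K (NN ψ ω) (NN ψ (shn n ω)) where
  Ψ := iter ψ n ω
  mem := fun f => mem_NN_level ψ n ω f
  br := by
    intro κ hκ
    cases n with
    | zero =>
      refine ⟨κ (), hκ (), ?_⟩
      apply Wr.ext
      · rfl
      · funext y
        rfl
    | succ n =>
      obtain ⟨f, hf, hf1, hf2⟩ := branch_all ψ (fun _ => K) (fun s _ κ hκ => hbr s κ hκ) n ω κ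
        hκ (ω 0)
      refine ⟨f, hf, ?_⟩
      apply Wr.ext
      · exact hf1
      · funext y
        exact hf2 y

theorem card_wd [Finite X] (n : ℕ) : Nat.card (Wd X n) = Nat.card X ^ n := by
  induction n with
  | zero =>
    change Nat.card Unit = _
    simp
  | succ n ih =>
    change Nat.card (X × Wd X n) = _
    rw [Nat.card_prod, ih, pow_succ, mul_comm]

theorem NN_eq_top [Subsingleton X] (ψ : S → F →* Wr F X) (ω : ℕ → S) : NN ψ ω = ⊤ := by
  rw [eq_top_iff]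
  intro f _
  rw [mem_NN]
  have h1 : ∀ n, Subsingleton (Wd X n) := by
    intro n
    induction n with
    | zero => exact inferInstanceAs (Subsingleton Unit)
    | succ n ih => exact inferInstanceAs (Subsingleton (X × Wd X n))
  intro n
  have := h1 n
  exact Subsingleton.elim _ _

theorem PB.mono' {N K : Subgroup F} {T : Set F} {m c c' : ℕ} (h : c ≤ c') (hP : PB N K T m c) :
    PB N K T m c' := fun g hg hm => (hP g hg hm).mono h

/-- contracting on average -/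
theorem bounded_of_shrinks [Finite X] [Nonempty X] [Finite S] (ψ : S → F →* Wr F X)
    (K : Subgroup F) [K.Normal] (hfin : (⁅K, K⁆).FiniteIndex)
    (hbr : ∀ s, ∀ κ : X → F, (∀ x, κ x ∈ K) → ∃ f ∈ K, (ψ s f).perm = 1 ∧ ∀ x, (ψ s f).sec x = κ x)
    (htr : ∀ (ω : ℕ → S) (n : ℕ) (v w : Wd X n), ∃ f, (iter ψ n ω f).perm v = w)
    {T : Set F} (hTf : T.Finite) (hTs : ∀ t ∈ T, t⁻¹ ∈ T) (hT : Subgroup.closure T = ⊤)
    (hsh : Shrinks ψ T) :
    ∃ B, ∀ ω, ∀ g ∈ ⁅K, K⁆, CM (NN ψ ω) K B g := by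
  classical
  by_cases hX : Subsingleton X
  · refine ⟨0, fun ω g hg => ⟨1, rfl, ?_⟩⟩
    rw [NN_eq_top]
    trivial
  have hXn : Nontrivial X := not_subsingleton_iff_nontrivial.1 hX
  have hX2 : 2 ≤ Nat.card X := by
    have := Finite.one_lt_card (α := X)
    omega
  have hKfin : K.FiniteIndex := by
    have h1 : ⁅K, K⁆ ≤ K := by
      rw [Subgroup.commutator_le]
      intro a ha b hb
      rw [commutatorElement_def]
      exact K.mul_mem (K.mul_mem (K.mul_mem ha hb) (K.inv_mem ha)) (K.inv_mem hb)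
    exact Subgroup.finiteIndex_of_le h1
  set ι := K.index with hι
  have hι0 : 1 ≤ ι := Nat.one_le_iff_ne_zero.2 Subgroup.FiniteIndex.index_ne_zero
  obtain ⟨N, hN, C₀, hC₀⟩ := hsh ι (2 * ι)
  have : Fintype (Wd X N) := Fintype.ofFinite _
  obtain ⟨C, hC⟩ := exists_good_all ψ K hfin hTs hT N (fun ω y y' => htr ω N y y')
  obtain ⟨a, ha⟩ := linear_bound K hfin hTf
  have hY : 2 * ι ≤ Nat.card (Wd X N) := by
    rw [card_wd]
    calc 2 * ι ≤ N := hN
      _ ≤ 2 ^ N := Nat.lt_two_pow_self.le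
      _ ≤ Nat.card X ^ N := Nat.pow_le_pow_left hX2 N
  have hYc : Fintype.card (Wd X N) = Nat.card (Wd X N) := Nat.card_eq_fintype_card.symm
  obtain ⟨B, hB⟩ := num_contr (fun m c => ∀ ω, PB (NN ψ ω) K T m c)
    (fun m c c' hcc h ω => (h ω).mono' hcc) a
    (fun m ω g hg hm => CM.of_CL (ha m g hg hm))
    (C + 2 * Fintype.card (Wd X N)) (C₀ + 3 * C * Fintype.card (Wd X N) + 1) (by
      intro m Q hQ ω
      obtain ⟨k, hk, hcard⟩ := hC ω
      have hk2 : 2 ≤ k := by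
        rw [← hYc] at hY
        by_contra hcon
        have hk1 : k ≤ 1 := by omega
        have h2 : Fintype.card (Wd X N) ≤ ι * 1 := hcard.trans (Nat.mul_le_mul_left _ hk1)
        omega
      obtain ⟨c, hc, hP⟩ := hQ k hk2
      refine Lvl.step (lvl ψ K hbr ω N) hTs hk ?_ (hP (shn N ω)) hc
      intro g hg
      obtain ⟨ℓ, hℓ1, hℓ2⟩ := hC₀ ω m g hg
      refine ⟨ℓ, hℓ1, fun J hJ => ?_⟩
      have h1 := hℓ2 J
      rw [← hYc] at h1
      have h2 : 2 * ι * ∑ y ∈ J, ℓ y ≤ ι * k * m + C₀ := by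
        refine h1.trans ?_
        have h0 : Fintype.card (Wd X N) * m ≤ ι * k * m := Nat.mul_le_mul_right m hcard
        omega
      have h3 : ∑ z ∈ J, (ℓ z + 3 * C) = ∑ y ∈ J, ℓ y + J.card * (3 * C) := by
        rw [Finset.sum_add_distrib, Finset.sum_const, smul_eq_mul]
      have h4 : J.card ≤ Fintype.card (Wd X N) := Finset.card_le_univ J
      have h5 : ∑ y ∈ J, ℓ y ≤ k * m / 2 + C₀ + 1 := by
        by_contra hcon
        push Not at hcon
        have h6 : k * m < 2 * (k * m / 2) + 2 := by omega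
        have h7 : 2 * ι * (k * m / 2 + C₀ + 1) < 2 * ι * ∑ y ∈ J, ℓ y :=
          Nat.mul_lt_mul_of_pos_left hcon (by omega)
        have h8 : 2 * ι * (k * m / 2 + C₀ + 1) = ι * (2 * (k * m / 2) + 2) + 2 * ι * C₀ := by ring
        have h9 : ι * (k * m) ≤ ι * (2 * (k * m / 2) + 2) := Nat.mul_le_mul_left _ h6.le
        have h10 : ι * k * m = ι * (k * m) := by ring
        have h11 : C₀ ≤ 2 * ι * C₀ := by
          calc C₀ = 1 * C₀ := (one_mul _).symm
            _ ≤ 2 * ι * C₀ := Nat.mul_le_mul_right _ (by omega)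
        omega
      rw [h3]
      have h12 : J.card * (3 * C) ≤ Fintype.card (Wd X N) * (3 * C) :=
        Nat.mul_le_mul_right _ h4
      have h13 : Fintype.card (Wd X N) * (3 * C) = 3 * C * Fintype.card (Wd X N) := by ring
      omega)
  refine ⟨B, fun ω g hg => ?_⟩
  obtain ⟨m, hm⟩ := Len.exists_of_mem_closure hTs (g := g) (by rw [hT]; trivial)
  exact hB m ω g hg hm

/-- automata of amenable or torsion groups -/
theorem bounded_of_pow [Finite X] [Nonempty X] [Finite S] (ψ : S → F →* Wr F X)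
    (K : Subgroup F) [K.Normal] (hfin : (⁅K, K⁆).FiniteIndex)
    (hbr : ∀ s, ∀ κ : X → F, (∀ x, κ x ∈ K) → ∃ f ∈ K, (ψ s f).perm = 1 ∧ ∀ x, (ψ s f).sec x = κ x)
    (htr : ∀ (ω : ℕ → S) (n : ℕ) (v w : Wd X n), ∃ f, (iter ψ n ω f).perm v = w)
    {T : Set F} (hA : Automaton ψ T) (hTs : ∀ t ∈ T, t⁻¹ ∈ T)
    (hZ : ∀ h ∈ ⁅K, K⁆, ∃ n, 1 ≤ n ∧ CL K (5 * n) (h ^ n)) :
    ∃ B, ∀ ω, ∀ g ∈ ⁅K, K⁆, CM (NN ψ ω) K B g := by
  classical
  obtain ⟨hTf, hT, hTsec⟩ := hA
  by_cases hX : Subsingleton X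
  · refine ⟨0, fun ω g hg => ⟨1, rfl, ?_⟩⟩
    rw [NN_eq_top]
    trivial
  have hXn : Nontrivial X := not_subsingleton_iff_nontrivial.1 hX
  have hX2 : 2 ≤ Nat.card X := by
    have := Finite.one_lt_card (α := X)
    omega
  have hKfin : K.FiniteIndex := by
    have h1 : ⁅K, K⁆ ≤ K := by
      rw [Subgroup.commutator_le]
      intro a ha b hb
      rw [commutatorElement_def]
      exact K.mul_mem (K.mul_mem (K.mul_mem ha hb) (K.inv_mem ha)) (K.inv_mem hb)
    exact Subgroup.finiteIndex_of_le h1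
  set ι := K.index with hι
  have hι0 : 1 ≤ ι := Nat.one_le_iff_ne_zero.2 Subgroup.FiniteIndex.index_ne_zero
  have : Fintype (Wd X (2 * ι)) := Fintype.ofFinite _
  obtain ⟨C, hC⟩ := exists_good_all ψ K hfin hTs hT (2 * ι) (fun ω y y' => htr ω (2 * ι) y y')
  have hY : 2 * ι ≤ Nat.card (Wd X (2 * ι)) := by
    rw [card_wd]
    calc 2 * ι ≤ 2 ^ (2 * ι) := Nat.lt_two_pow_self.le
      _ ≤ Nat.card X ^ (2 * ι) := Nat.pow_le_pow_left hX2 (2 * ι)
  have hYc : Fintype.card (Wd X (2 * ι)) = Nat.card (Wd X (2 * ι)) :=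
    Nat.card_eq_fintype_card.symm
  obtain ⟨B, hB⟩ := num_sub (fun m c => ∀ ω, PB (NN ψ ω) K T m c)
    (fun m c c' hcc h ω => (h ω).mono' hcc)
    (fun r hr => by
      obtain ⟨C', hC'⟩ := sublinear_bound K hfin hTf hZ r hr
      exact ⟨C', fun m ω g hg hm => CM.of_CL (hC' m g hg hm)⟩)
    (C + 2 * Fintype.card (Wd X (2 * ι))) (3 * C) (by
      intro m Q hQ ω
      obtain ⟨k, hk, hcard⟩ := hC ω
      have hk2 : 2 ≤ k := by
        rw [← hYc] at hY
        by_contra hcon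
        have hk1 : k ≤ 1 := by omega
        have h2 : Fintype.card (Wd X (2 * ι)) ≤ ι * 1 := hcard.trans (Nat.mul_le_mul_left _ hk1)
        omega
      obtain ⟨c, hc, hP⟩ := hQ k hk2
      refine Lvl.step (lvl ψ K hbr ω (2 * ι)) hTs hk ?_ (hP (shn (2 * ι) ω)) hc
      intro g hg
      refine ⟨fun _ => m, fun y => len_automaton ψ hTsec _ ω m g hg y, fun J hJ => ?_⟩
      rw [Finset.sum_const, hJ, smul_eq_mul])
  refine ⟨B, fun ω g hg => ?_⟩
  obtain ⟨m, hm⟩ := Len.exists_of_mem_closure hTs (g := g) (by rw [hT]; trivial)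
  exact hB m ω g hg hm

/-- a symmetric finite generating set -/
theorem exists_symm_gen [Group.FG F] : ∃ T : Set F, T.Finite ∧ (∀ t ∈ T, t⁻¹ ∈ T) ∧
    Subgroup.closure T = ⊤ := by
  obtain ⟨A, hA⟩ := Group.fg_def.1 (inferInstance : Group.FG F)
  refine ⟨(A : Set F) ∪ (A : Set F)⁻¹, A.finite_toSet.union A.finite_toSet.inv, ?_, ?_⟩
  · rintro t (ht | ht)
    · exact Or.inr (by simpa using ht)
    · exact Or.inl ht
  · rw [eq_top_iff, ← hA]
    exact Subgroup.closure_mono Set.subset_union_left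

/-- The commutator width is uniformly bounded. -/
theorem main_bound [Group.FG F] [Finite X] [Nonempty X] [Finite S] (ψ : S → F →* Wr F X)
    (K : Subgroup F) [K.Normal] (hfin : (⁅K, K⁆).FiniteIndex)
    (hbr : ∀ s, ∀ κ : X → F, (∀ x, κ x ∈ K) → ∃ f ∈ K, (ψ s f).perm = 1 ∧ ∀ x, (ψ s f).sec x = κ x)
    (htr : ∀ (ω : ℕ → S) (n : ℕ) (v w : Wd X n), ∃ f, (iter ψ n ω f).perm v = w)
    (hcase : Contracting ψ ∨ ∃ T, Automaton ψ T ∧
      (ReachesOne ψ T ∨ Folner F ∨ Subexponential F ∨ Monoid.IsTorsion F)) :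
    ∃ B, ∀ ω, ∀ g ∈ ⁅K, K⁆, CM (NN ψ ω) K B g := by
  rcases hcase with hψ | ⟨T, hT, h⟩
  · obtain ⟨T, hTf, hTs, hT⟩ := exists_symm_gen (F := F)
    exact bounded_of_shrinks ψ K hfin hbr htr hTf hTs hT
      (shrinks_of_contracting ψ hψ hTf hTs hT)
  · obtain ⟨T', hT', hTs, hR⟩ := automaton_symm ψ hT
    rcases h with h | h | h | h
    · exact bounded_of_shrinks ψ K hfin hbr htr hT'.1 hTs hT'.2.1
        (shrinks_of_reachesOne ψ hT' (hR h))
    · exact bounded_of_pow ψ K hfin hbr htr hT' hTs (pow_of_folner h K)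
    · exact bounded_of_pow ψ K hfin hbr htr hT' hTs (pow_of_folner (folner_of_subexponential h) K)
    · exact bounded_of_pow ψ K hfin hbr htr hT' hTs (pow_of_torsion h K)

end

end Pool.Agent.VX
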