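import Pool.Agent.VX.Basic

/-! Job VX-Perm. Reordering a product of `n` factors costs `n` commutators. -/

namespace Pool.Agent.VX

open Pool.Agent.VW
open scoped commutatorElement

variable {F : Type*} [Group F] {K : Subgroup F}

/-- Induction on `l`: if `l = x :: t` then `l' = u ++ x :: v` with `t ~ u ++ v` and
`l.prod * l'.prod⁻¹ = x (t.prod * (u ++ v).prod⁻¹) x⁻¹ * (x * u.prod * x⁻¹ * u.prod⁻¹)` up to the obvious
rewriting: one commutator of elements of `K` per element (`CL.conj_mem`, `CL.mul`, `CL.of_comm`). -/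
theorem CL.perm {l l' : List F} (h : l.Perm l') (hl : ∀ x ∈ l, x ∈ K) :
    CL K l.length (l.prod * l'.prod⁻¹) := by
  induction l generalizing l' with
  | nil =>
    obtain rfl : l' = [] := h.nil_eq.symm
    show ([] : List F).prod * ([] : List F).prod⁻¹ = 1
    rw [mul_inv_cancel]
  | cons x t ih =>
    obtain ⟨u, v, rfl⟩ := List.append_of_mem (h.mem_iff.1 List.mem_cons_self)
    have h1 : t.Perm (u ++ v) := List.Perm.cons_inv (h.trans List.perm_middle)
    have h2 := ih h1 fun y hy => hl y (List.mem_cons_of_mem x hy)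
    have hx : x ∈ K := hl x List.mem_cons_self
    have hu : u.prod ∈ K := by
      refine Subgroup.list_prod_mem _ fun y hy => hl y (h.mem_iff.2 ?_)
      exact List.mem_append_left _ hy
    have h3 := (CL.conj_mem h2 hx).mul (CL.of_comm hx hu)
    have e : x * (t.prod * (u ++ v).prod⁻¹) * x⁻¹ * ⁅x, u.prod⁆ = (x :: t).prod * (u ++ x :: v).prod⁻¹ := by
      rw [List.prod_append, List.prod_append, List.prod_cons, List.prod_cons, commutatorElement_def]
      group
    rw [e] at h3
    exact h3

private theorem prod_ne [DecidableEq F] (l : List F) :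
    (l.filter (fun x => decide (x ≠ 1))).prod = l.prod := by
  induction l with
  | nil => rfl
  | cons x t ih =>
    by_cases h : x = 1
    · rw [List.filter_cons_of_neg (by simp [h]), ih, List.prod_cons, h, one_mul]
    · rw [List.filter_cons_of_pos (by simp [h]), List.prod_cons, List.prod_cons, ih]

/-- the trivial factors cost nothing: apply `CL.perm` to the filtered lists -/
theorem CL.perm_ne [DecidableEq F] {l l' : List F}
    (h : (l.filter (fun x => decide (x ≠ 1))).Perm (l'.filter (fun x => decide (x ≠ 1))))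
    (hl : ∀ x ∈ l, x ∈ K) :
    CL K (l.filter (fun x => decide (x ≠ 1))).length (l.prod * l'.prod⁻¹) := by
  have h1 := CL.perm h fun x hx => hl x (List.mem_filter.1 hx).1
  rwa [prod_ne, prod_ne] at h1

private theorem split_add : ∀ (b : ℕ) {a : ℕ} {u : F}, CL K (a + b) u →
    ∃ u1 u2, CL K a u1 ∧ CL K b u2 ∧ u = u1 * u2
  | 0, a, u, h => ⟨u, 1, h, rfl, (mul_one u).symm⟩
  | b + 1, a, u, h => by
      obtain ⟨u', x, y, hx, hy, hu', rfl⟩ := h
      obtain ⟨u1, u2, h1, h2, rfl⟩ := split_add b hu'
      exact ⟨u1, u2 * ⁅x, y⁆, h1, ⟨u2, x, y, hx, hy, h2, rfl⟩, mul_assoc _ _ _⟩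

private theorem blocks' (q : ℕ) : ∀ (k : ℕ) {u : F}, CL K (k * q) u →
    ∃ l : List F, l.length = k ∧ (∀ x ∈ l, CL K q x) ∧ l.prod = u
  | 0, u, h => by
      rw [Nat.zero_mul] at h
      exact ⟨[], rfl, fun x hx => absurd hx List.not_mem_nil, (show u = 1 from h).symm⟩
  | k + 1, u, h => by
      rw [Nat.succ_mul] at h
      obtain ⟨u1, u2, h1, h2, rfl⟩ := split_add q h
      obtain ⟨l, h3, h4, h5⟩ := blocks' q k h1
      refine ⟨l ++ [u2], by rw [List.length_append, h3]; rfl, fun x hx => ?_, ?_⟩
      · rcases List.mem_append.1 hx with hx | hx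
        · exact h4 x hx
        · rw [List.mem_singleton.1 hx]
          exact h2
      · rw [List.prod_append, h5, List.prod_singleton]

/-- cutting a product of `c ≤ k q` commutators into `k` blocks of `q` commutators -/
theorem CL.blocks {c k q : ℕ} (h : c ≤ k * q) {u : F} (hu : CL K c u) :
    ∃ l : List F, l.length = k ∧ (∀ x ∈ l, CL K q x) ∧ l.prod = u := by
  exact blocks' q k (hu.mono h)

/-- `∏ a_z b_z = E * ∏ b_z` where `E` is a product of as many commutators as there are indices, if every
`a_z` is a commutator of elements of the normal subgroup `K`. -/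
theorem CL.prod_mul [K.Normal] {ι : Type*} (l : List ι) (a b : ι → F) (ha : ∀ z ∈ l, CL K 1 (a z)) :
    ∃ E, CL K l.length E ∧ (l.map (fun z => a z * b z)).prod = E * (l.map b).prod := by
  induction l with
  | nil => exact ⟨1, rfl, by simp⟩
  | cons z t ih =>
    obtain ⟨E, hE, h1⟩ := ih fun y hy => ha y (List.mem_cons_of_mem z hy)
    refine ⟨a z * (b z * E * (b z)⁻¹), ?_, ?_⟩
    · have h2 := (ha z List.mem_cons_self).mul (CL.conj hE (b z))
      rwa [Nat.add_comm 1] at h2
    · rw [List.map_cons, List.prod_cons, h1, List.map_cons, List.prod_cons]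
      group

end Pool.Agent.VX
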