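import Pool.Agent.VX.Trans

/-! Job VX-Split. The amplification: a product of `c ≤ k q` commutators placed at one vertex costs only
`|Y| + q` commutators, where `k` is the size of the orbits. -/

namespace Pool.Agent.VX

open Pool.Agent.VW
open scoped commutatorElement

private theorem prod_getD {F Y : Type} [Group F] [DecidableEq Y] (L : List Y) (hL : L.Nodup)
    (l : List F) (h : l.length ≤ L.length) :
    (L.map (fun z => l.getD (L.idxOf z) 1)).prod = l.prod := by
  have h1 : L.map (fun z => l.getD (L.idxOf z) 1) =
      l ++ List.replicate (L.length - l.length) 1 := by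
    apply List.ext_getElem
    · rw [List.length_map, List.length_append, List.length_replicate]
      omega
    · intro i hi1 hi2
      have hi : i < L.length := by rwa [List.length_map] at hi1
      rw [List.getElem_map, hL.idxOf_getElem i hi]
      by_cases hil : i < l.length
      · rw [List.getD_eq_getElem _ _ hil, List.getElem_append_left hil]
      · rw [List.getD_eq_default _ _ (not_lt.1 hil), List.getElem_append_right (not_lt.1 hil),
          List.getElem_replicate]
  rw [h1, List.prod_append, List.prod_replicate, one_pow, mul_one]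

/-- For each representative `y` write `μ y = u y` modulo `M` with `CL K c (u y)`, cut `u y` into `k` blocks
(`CL.blocks`) and distribute them over the list `ys.filter (r z = y)` (`ys = Finset.univ.toList`; pad with
`1`), giving `B : Y → F`, `CL K q (B z)`, whose product over each fibre is `u y`. Apply `Lvl.transport` and
`Lvl.par` to `κ z = σ_z⁻¹ B_z σ_z`, `σ_z = (Λ.Ψ (s z)).sec z`: `f = E⁻¹ g'` modulo `N` with `CL K q g'` (use
`Λ.mem` to compare elements modulo `N` through their sections modulo `M`). Note that a fibre over `y` with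
`r y ≠ y` is empty. -/
theorem Lvl.split {F Y : Type} [Group F] {K N M : Subgroup F} [K.Normal] [N.Normal] [M.Normal]
    [Fintype Y] [DecidableEq Y] (Λ : Lvl F Y K N M) (r : Y → Y) (hr : ∀ y, r (r y) = r y) (s : Y → F)
    (hs : ∀ y, s y ∈ K) (hsr : ∀ y, (Λ.Ψ (s y)).perm y = r y) {k q c : ℕ}
    (hk : ∀ y, k ≤ (Finset.univ.filter (fun z => r z = r y)).card) (hc : c ≤ k * q) (μ : Y → F)
    (hμ1 : ∀ y, r y ≠ y → μ y = 1) (hμ : ∀ y, CM M K c (μ y)) {f : F} (hf : Λ.Ψ f = base μ) :
    CM N K (Fintype.card Y + q) f := by
  classical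
  choose u hu huM using hμ
  have hbl : ∀ y, ∃ l : List F, l.length = k ∧ (∀ x ∈ l, CL K q x) ∧ l.prod = u y :=
    fun y => CL.blocks hc (hu y)
  choose bl hbl1 hbl2 hbl3 using hbl
  set ys : List Y := Finset.univ.toList with hys
  have hnd : ys.Nodup := Finset.nodup_toList _
  have hall : ∀ y, y ∈ ys := fun y => Finset.mem_toList.2 (Finset.mem_univ y)
  have hlen : ys.length = Fintype.card Y := by rw [hys, Finset.length_toList, Finset.card_univ]
  set L : Y → List Y := fun y => ys.filter (fun z => decide (r z = y)) with hL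
  set B : Y → F := fun z => (bl (r z)).getD ((L (r z)).idxOf z) 1 with hB
  have hBq : ∀ z, CL K q (B z) := by
    intro z
    simp only [hB]
    by_cases h : (L (r z)).idxOf z < (bl (r z)).length
    · rw [List.getD_eq_getElem _ _ h]
      exact hbl2 _ _ (List.getElem_mem h)
    · rw [List.getD_eq_default _ _ (not_lt.1 h)]
      exact CL.one q
  set σ : Y → F := fun z => (Λ.Ψ (s z)).sec z with hσ
  set κ : Y → F := fun z => (σ z)⁻¹ * B z * (σ z)⁻¹⁻¹ with hκ
  have hκq : ∀ z, CL K q (κ z) := fun z => CL.conj (hBq z) _
  have hσκ : ∀ z, σ z * κ z * (σ z)⁻¹ = B z := by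
    intro z
    simp only [hκ]
    group
  obtain ⟨E, hE, g, -, hEg, hg⟩ := Λ.transport ys hnd hall r s hs hsr κ (fun y => CL.mem_K (hκq y))
  obtain ⟨g', hg', hg'κ⟩ := Λ.par κ hκq
  -- the sections of `g`
  have hprod : ∀ y, r y = y → ((L y).map B).prod = u y := by
    intro y hy
    have h1 : (L y).map B = (L y).map (fun z => (bl y).getD ((L y).idxOf z) 1) := by
      apply List.map_congr_left
      intro z hz
      have hz' : r z = y := by
        exact of_decide_eq_true (List.mem_filter.1 (show z ∈ ys.filter (fun z => decide (r z = y)) from hz)).2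
      simp only [hB, hz']
    have h2 : (bl y).length ≤ (L y).length := by
      rw [hbl1]
      have h3 := hk y
      have h4 : (Finset.univ.filter (fun z => r z = r y)).card = (L y).length := by
        have h5 : (L y).Nodup := hnd.filter _
        rw [← List.toFinset_card_of_nodup h5]
        congr 1
        ext z
        rw [Finset.mem_filter, List.mem_toFinset, List.mem_filter, hy]
        constructor
        · rintro ⟨-, h6⟩
          exact ⟨hall z, decide_eq_true h6⟩
        · rintro ⟨-, h6⟩
          exact ⟨Finset.mem_univ z, of_decide_eq_true h6⟩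
      omega
    rw [h1, prod_getD (L y) (hnd.filter _) (bl y) h2, hbl3]
  have hprod' : ∀ y, r y ≠ y → ((L y).map B).prod = 1 := by
    intro y hy
    have h1 : L y = [] := by
      rw [List.eq_nil_iff_forall_not_mem]
      intro z hz
      have hz' : r z = y :=
        of_decide_eq_true (List.mem_filter.1 (show z ∈ ys.filter (fun z => decide (r z = y)) from hz)).2
      apply hy
      rw [← hz', hr]
    rw [h1]
    rfl
  have hgsec : Λ.Ψ g = base (fun y => ((L y).map B).prod) := by
    rw [hg]
    congr 1
    funext y
    congr 1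
    apply List.map_congr_left
    intro z _
    exact hσκ z
  -- comparison modulo `N`
  have h1 : g⁻¹ * f ∈ N := by
    rw [Λ.mem, map_mul, map_inv, hgsec, hf, base_inv, base_mul]
    refine ⟨rfl, fun y => ?_⟩
    rw [base_sec]
    by_cases hy : r y = y
    · show (((L y).map B).prod)⁻¹ * μ y ∈ M
      rw [hprod y hy]
      exact huM y
    · show (((L y).map B).prod)⁻¹ * μ y ∈ M
      rw [hprod' y hy, hμ1 y hy, inv_one, one_mul]
      exact M.one_mem
  have h2 : g'⁻¹ * (E * g) ∈ N := by
    rw [Λ.mem, map_mul, map_inv, hEg, hg'κ, inv_mul_cancel]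
    refine ⟨rfl, fun y => ?_⟩
    exact M.one_mem
  refine ⟨E⁻¹ * g', ?_, ?_⟩
  · rw [← hlen]
    exact (CL.inv hE).mul hg'
  · have h3 : (E⁻¹ * g')⁻¹ * f = g'⁻¹ * (E * g) * (g⁻¹ * f) := by group
    rw [h3]
    exact N.mul_mem h2 h1

end Pool.Agent.VX
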