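import Pool.Agent.VW.Iter

/-! Products of commutators, exactly (`CL`) and modulo a normal subgroup (`CM`);
one level of the wreath recursion (`Lvl`). -/

namespace Pool.Agent.VX

open Pool.Agent.VW
open scoped commutatorElement

section CL

variable {F : Type*} [Group F] {K : Subgroup F}

theorem CL.one (c : ℕ) : CL K c (1 : F) := CL.mono (Nat.zero_le c) rfl

theorem CL.of_comm {a b : F} (ha : a ∈ K) (hb : b ∈ K) : CL K 1 ⁅a, b⁆ :=
  ⟨1, a, b, ha, hb, rfl, by simp⟩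

theorem CL.mem : ∀ {c : ℕ} {u : F}, CL K c u → u ∈ ⁅K, K⁆
  | 0, u, h => by
      have h' : u = 1 := h
      rw [h']
      exact Subgroup.one_mem _
  | c + 1, u, h => by
      obtain ⟨u', a, b, ha, hb, hu', rfl⟩ := h
      exact Subgroup.mul_mem _ (CL.mem hu') (Subgroup.commutator_mem_commutator ha hb)

theorem CL.mem_K {c : ℕ} {u : F} (h : CL K c u) : u ∈ K := by
  have h1 : ⁅K, K⁆ ≤ K := by
    rw [Subgroup.commutator_le]
    intro a ha b hb
    rw [commutatorElement_def]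
    exact K.mul_mem (K.mul_mem (K.mul_mem ha hb) (K.inv_mem ha)) (K.inv_mem hb)
  exact h1 (CL.mem h)

/-- conjugation by an element normalising `K` -/
theorem CL.conj' {g : F} (hg : ∀ a ∈ K, g * a * g⁻¹ ∈ K) : ∀ {c : ℕ} {u : F}, CL K c u →
    CL K c (g * u * g⁻¹)
  | 0, u, h => by
      have h' : u = 1 := h
      rw [h']
      change g * 1 * g⁻¹ = 1
      group
  | c + 1, u, h => by
      obtain ⟨u', a, b, ha, hb, hu', rfl⟩ := h
      refine ⟨g * u' * g⁻¹, g * a * g⁻¹, g * b * g⁻¹, hg a ha, hg b hb, CL.conj' hg hu', ?_⟩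
      rw [commutatorElement_def, commutatorElement_def]
      group

theorem CL.conj [K.Normal] {c : ℕ} {u : F} (h : CL K c u) (g : F) : CL K c (g * u * g⁻¹) :=
  CL.conj' (fun a ha => Subgroup.Normal.conj_mem inferInstance a ha g) h

/-- conjugation by an element of `K` -/
theorem CL.conj_mem {c : ℕ} {u : F} (h : CL K c u) {g : F} (hg : g ∈ K) :
    CL K c (g * u * g⁻¹) :=
  CL.conj' (fun _ ha => K.mul_mem (K.mul_mem hg ha) (K.inv_mem hg)) h

theorem CL.inv : ∀ {c : ℕ} {u : F}, CL K c u → CL K c u⁻¹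
  | 0, u, h => by
      have h' : u = 1 := h
      rw [h']
      change (1 : F)⁻¹ = 1
      exact inv_one
  | c + 1, u, h => by
      obtain ⟨u', a, b, ha, hb, hu', rfl⟩ := h
      have h1 := (CL.of_comm hb ha).mul (CL.inv hu')
      rw [mul_inv_rev, commutatorElement_inv]
      rwa [Nat.add_comm 1 c] at h1

theorem CL.pow {c : ℕ} {u : F} (h : CL K c u) : ∀ n : ℕ, CL K (n * c) (u ^ n)
  | 0 => by
      rw [Nat.zero_mul, pow_zero]
      exact CL.one 0
  | n + 1 => by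
      rw [pow_succ, Nat.add_mul, Nat.one_mul]
      exact (CL.pow h n).mul h

theorem CL.mono_K {L : Subgroup F} (hKL : K ≤ L) : ∀ {c : ℕ} {u : F}, CL K c u → CL L c u
  | 0, _, h => h
  | _ + 1, _, h => by
      obtain ⟨u', a, b, ha, hb, hu', rfl⟩ := h
      exact ⟨u', a, b, hKL ha, hKL hb, CL.mono_K hKL hu', rfl⟩

end CL

/-- `g` is, modulo `N`, a product of `c` commutators of elements of `K`. -/
def CM {F : Type*} [Group F] (N K : Subgroup F) (c : ℕ) (g : F) : Prop :=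
  ∃ u, CL K c u ∧ u⁻¹ * g ∈ N

section CM

variable {F : Type*} [Group F] {N K : Subgroup F}

theorem CM.of_CL {c : ℕ} {g : F} (h : CL K c g) : CM N K c g :=
  ⟨g, h, by rw [inv_mul_cancel]; exact N.one_mem⟩

theorem CM.mono {c d : ℕ} (hcd : c ≤ d) {g : F} (h : CM N K c g) : CM N K d g := by
  obtain ⟨u, hu, hN⟩ := h
  exact ⟨u, hu.mono hcd, hN⟩

theorem CM.mul [N.Normal] {c d : ℕ} {g h : F} (hg : CM N K c g) (hh : CM N K d h) :
    CM N K (c + d) (g * h) := by
  obtain ⟨u, hu, huN⟩ := hg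
  obtain ⟨v, hv, hvN⟩ := hh
  refine ⟨u * v, hu.mul hv, ?_⟩
  have h1 : v⁻¹ * (u⁻¹ * g) * v⁻¹⁻¹ ∈ N := Subgroup.Normal.conj_mem inferInstance _ huN v⁻¹
  have h2 := N.mul_mem h1 hvN
  have h3 : (u * v)⁻¹ * (g * h) = v⁻¹ * (u⁻¹ * g) * v⁻¹⁻¹ * (v⁻¹ * h) := by group
  rw [h3]
  exact h2

theorem CM.congr [N.Normal] {c : ℕ} {g h : F} (hg : CM N K c g) (hgh : g⁻¹ * h ∈ N) :
    CM N K c h := by
  obtain ⟨u, hu, huN⟩ := hg
  refine ⟨u, hu, ?_⟩
  have h2 := N.mul_mem huN hgh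
  have h3 : u⁻¹ * h = u⁻¹ * g * (g⁻¹ * h) := by group
  rw [h3]
  exact h2

end CM

/-- One level of the recursion: a homomorphism `Ψ : F → F ≀ Sym(Y)` which identifies `F ⧸ N` with
a subgroup of `(F ⧸ M) ≀ Sym(Y)`, such that every family of elements of `K` is the family of
sections of an element of `K` acting trivially on `Y`. -/
structure Lvl (F Y : Type) [Group F] (K N M : Subgroup F) where
  /-- the homomorphism -/
  Ψ : F →* Wr F Y
  mem : ∀ f, f ∈ N ↔ (Ψ f).perm = 1 ∧ ∀ y, (Ψ f).sec y ∈ M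
  br : ∀ κ : Y → F, (∀ y, κ y ∈ K) → ∃ f ∈ K, Ψ f = base κ

end Pool.Agent.VX
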