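import Pool.Agent.VW.Iter
import Pool.Agent.VW.Defs

/-! Definitions used in the statement of the theorem on regular branch automaton groups
(MP_bcef47_al). `Wr F X` is the wreath product `F ≀ Sym(X)`: pairs (permutation `perm` of `X`,
sections `sec : X → F`). For a family of homomorphisms (wreath recursions) `ψ s : F →* Wr F X` and a
sequence `ω` of symbols, `iter ψ n ω : F →* Wr F (Wd X n)` is the recursion iterated `n` times along
`ω`, where `Wd X n` is the set of words of length `n`, and `NN ψ ω` is the normal subgroup of the
elements acting trivially on all words. -/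

namespace Pool.Agent.VX

open Pool.Agent.VW

/-- Følner's condition (amenability): for every finite set `A` and every `n` there is a nonempty
finite set `Y` such that for each `a ∈ A` at most `|Y| / n` elements of `Y` are moved out of `Y` by
left multiplication by `a`. -/
def Folner (F : Type) [Group F] : Prop :=
  ∀ (A : Finset F) (n : ℕ), ∃ Y : Finset F, Y.Nonempty ∧
    ∀ a ∈ A, n * Set.ncard {y : F | y ∈ Y ∧ a * y ∉ Y} ≤ Y.card

/-- `F` is generated by a finite set and has subexponential growth, in the words of the problem. -/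
def Subexponential (F : Type) [Group F] : Prop :=
  ∃ S : Finset F, Subgroup.closure (S : Set F) = ⊤ ∧
    ∀ ε : ℝ, 0 < ε → ∃ N : ℕ, ∀ n : ℕ, N ≤ n →
        ((Set.ncard {g : F | ∃ l : List F, l.length ≤ n ∧
          (∀ x ∈ l, x ∈ S ∨ x⁻¹ ∈ S) ∧ l.prod = g} : ℕ) : ℝ) ≤ (1 + ε) ^ n

variable {F X S : Type} [Group F]

/-- the recursions are contracting: some finite set contains all deep sections of every element -/
def Contracting (ψ : S → F →* Wr F X) : Prop :=
  ∃ nuc : Set F, nuc.Finite ∧ ∀ f, ∃ n₀, ∀ n, n₀ ≤ n → ∀ (ω : ℕ → S) (y : Wd X n),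
    (iter ψ n ω f).sec y ∈ nuc

/-- `T` is a finite set of generators which contains all sections of its elements: `F` is generated
by the (time-varying) finite automaton with set of states `T` -/
def Automaton (ψ : S → F →* Wr F X) (T : Set F) : Prop :=
  T.Finite ∧ Subgroup.closure T = ⊤ ∧ ∀ s, ∀ t ∈ T, ∀ x, (ψ s t).sec x ∈ T

/-- from every state in `T` the trivial state is reachable, in at most `n` steps -/
def ReachesOne (ψ : S → F →* Wr F X) (T : Set F) : Prop :=
  ∃ n, ∀ (ω : ℕ → S), ∀ t ∈ T, ∃ y : Wd X n, (iter ψ n ω t).sec y = 1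

end Pool.Agent.VX
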