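import Pool.Agent.VX.Defs

/-! Job VX-Fol. Følner sets. Mathlib and the definitions only. -/

namespace Pool.Agent.VX

/-- Decompose a Følner set `Y` of `F` (for the finite set `A ⊆ K` and `n |A|`) along the right cosets `K g`:
left multiplication by `a ∈ K` preserves them, so for one coset `∑_{a ∈ A} #{y ∈ Y ∩ K g : a y ∉ Y} ≤ |Y ∩ K g| / n`;
translate by `g⁻¹`. -/
theorem Folner.subgroup {F : Type} [Group F] (hF : Folner F) (K : Subgroup F) : Folner K := by
  classical
  intro A n
  rcases A.eq_empty_or_nonempty with rfl | hA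
  · exact ⟨{1}, Finset.singleton_nonempty _, fun a ha => absurd ha (Finset.notMem_empty a)⟩
  obtain ⟨Y, hY, hYA⟩ := hF (A.image (fun a : K => (a : F))) (n * A.card)
  have h1 : n * ∑ a ∈ A, (Y.filter (fun y => (a : F) * y ∉ Y)).card ≤ Y.card := by
    have h2 : ∑ a ∈ A, (n * A.card) * (Y.filter (fun y => (a : F) * y ∉ Y)).card ≤ ∑ a ∈ A, Y.card := by
      refine Finset.sum_le_sum fun a ha => ?_
      have h3 := hYA (a : F) (Finset.mem_image_of_mem _ ha)
      have h4 : {y : F | y ∈ Y ∧ (a : F) * y ∉ Y} = ((Y.filter (fun y => (a : F) * y ∉ Y) : Finset F) : Set F) := by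
        ext y
        simp
      rwa [h4, Set.ncard_coe_finset] at h3
    rw [← Finset.mul_sum, Finset.sum_const, smul_eq_mul] at h2
    have h3 : A.card * (n * ∑ a ∈ A, (Y.filter (fun y => (a : F) * y ∉ Y)).card) ≤ A.card * Y.card := by
      refine le_trans (le_of_eq ?_) h2
      ring
    exact Nat.le_of_mul_le_mul_left h3 (Finset.card_pos.2 hA)
  let r : F → Quotient (QuotientGroup.rightRel K) := fun y => Quotient.mk _ y
  have hr : ∀ (a : K) (y : F), r ((a : F) * y) = r y := by
    intro a y
    apply Quotient.sound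
    show (QuotientGroup.rightRel K) _ _
    rw [QuotientGroup.rightRel_apply, mul_inv_rev, ← mul_assoc, mul_inv_cancel, one_mul]
    exact K.inv_mem a.2
  obtain ⟨c, hc, hcn⟩ : ∃ c ∈ Y.image r, n * ∑ a ∈ A, ((Y.filter (fun y => (a : F) * y ∉ Y)).filter (fun y => r y = c)).card ≤
      (Y.filter (fun y => r y = c)).card := by
    apply Finset.exists_le_of_sum_le (hY.image r)
    rw [← Finset.mul_sum, Finset.sum_comm, ← Finset.card_eq_sum_card_image]
    refine le_trans (le_of_eq ?_) h1
    congr 1
    refine Finset.sum_congr rfl fun a _ => ?_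
    symm
    apply Finset.card_eq_sum_card_fiberwise
    intro y hy
    exact Finset.mem_coe.2 (Finset.mem_image_of_mem _ (Finset.mem_filter.1 (Finset.mem_coe.1 hy)).1)
  obtain ⟨y0, hy0, rfl⟩ := Finset.mem_image.1 hc
  have hK : ∀ y, r y = r y0 → y * y0⁻¹ ∈ K := by
    intro y hy
    have h2 : (QuotientGroup.rightRel K) y0 y := Quotient.exact hy.symm
    rwa [QuotientGroup.rightRel_apply] at h2
  have hinj : Function.Injective (fun k : K => (k : F) * y0) := fun k k' h => Subtype.ext (mul_right_cancel h)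
  have him : ∀ (P : F → Prop) (Q : K → Prop) [DecidablePred P] [DecidablePred Q], (∀ k : K, Q k ↔ P ((k : F) * y0)) →
      ((Y.preimage (fun k : K => (k : F) * y0) hinj.injOn).filter Q).card = ((Y.filter P).filter (fun y => r y = r y0)).card := by
    intro P Q _ _ hPQ
    rw [← Finset.card_image_of_injective _ hinj]
    congr 1
    ext y
    simp only [Finset.mem_image, Finset.mem_filter, Finset.mem_preimage]
    constructor
    · rintro ⟨k, ⟨h2, h3⟩, rfl⟩
      exact ⟨⟨h2, (hPQ k).1 h3⟩, hr k y0⟩
    · rintro ⟨⟨h2, h3⟩, h4⟩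
      have h5 : y * y0⁻¹ * y0 = y := by group
      refine ⟨⟨y * y0⁻¹, hK y h4⟩, ⟨?_, ?_⟩, h5⟩
      · rw [h5]
        exact h2
      · rw [hPQ]
        show P (y * y0⁻¹ * y0)
        rw [h5]
        exact h3
  refine ⟨Y.preimage (fun k : K => (k : F) * y0) hinj.injOn, ⟨1, ?_⟩, fun a ha => ?_⟩
  · rw [Finset.mem_preimage]
    simpa using hy0
  · have h2 : {k : K | k ∈ Y.preimage (fun k : K => (k : F) * y0) hinj.injOn ∧ a * k ∉ Y.preimage (fun k : K => (k : F) * y0) hinj.injOn} =
        (((Y.preimage (fun k : K => (k : F) * y0) hinj.injOn).filter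
          (fun k => a * k ∉ Y.preimage (fun k : K => (k : F) * y0) hinj.injOn) : Finset K) : Set K) := by
      ext k
      simp
    rw [h2, Set.ncard_coe_finset, him (fun y => (a : F) * y ∉ Y)
      (fun k => a * k ∉ Y.preimage (fun k : K => (k : F) * y0) hinj.injOn) (by
      intro k
      rw [Finset.mem_preimage, Subgroup.coe_mul, mul_assoc])]
    have h3 : (Y.preimage (fun k : K => (k : F) * y0) hinj.injOn).card = (Y.filter (fun y => r y = r y0)).card := by
      have h4 := him (fun _ => True) (fun _ => True) (fun _ => Iff.rfl)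
      rwa [Finset.filter_true, Finset.filter_true] at h4
    rw [h3]
    refine le_trans (Nat.mul_le_mul_left n ?_) hcn
    exact Finset.single_le_sum (f := fun a : K => ((Y.filter (fun y => (a : F) * y ∉ Y)).filter (fun y => r y = r y0)).card)
      (fun _ _ => Nat.zero_le _) ha

end Pool.Agent.VX
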