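import Pool.Agent.VX.TT
import Pool.Agent.VX.Fol

/-! Job VX-Pow. In an amenable group every product of commutators `h` has a power `h ^ n`, `n ≥ 1`,
which is a product of `5 n` commutators. -/

namespace Pool.Agent.VX

open Pool.Agent.VW
open scoped commutatorElement

private theorem Pow_list {Γ : Type} [Group Γ] : ∀ {c : ℕ} {h : Γ}, CL (⊤ : Subgroup Γ) c h →
    ∃ l : List (Γ × Γ), l.length = c ∧ h = (l.map (fun p => ⁅p.1, p.2⁆)).prod
  | 0, h, hh => ⟨[], rfl, hh⟩
  | c + 1, h, hh => by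
      obtain ⟨u, a, b, -, -, hu, rfl⟩ := hh
      obtain ⟨l, h1, rfl⟩ := Pow_list hu
      exact ⟨l ++ [(a, b)], by rw [List.length_append, h1]; rfl, by simp⟩

private theorem Pow_triples {Γ Y : Type} (ys : List Y) (f g k : Y → Γ) :
    (ys.flatMap (fun y => [f y, g y, k y])).Perm (ys.map f ++ (ys.map g ++ ys.map k)) := by
  classical
  rw [List.perm_iff_count]
  intro x
  induction ys with
  | nil => rfl
  | cons y t ih =>
    simp only [List.flatMap_cons, List.map_cons, List.count_append, List.count_cons, List.count_nil] at ih ⊢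
    omega

private theorem Pow_ys {Y : Type} (ys : List Y) (hnd : ys.Nodup) (hall : ∀ y, y ∈ ys)
    (σ : Equiv.Perm Y) : (ys.map σ).Perm ys := by
  classical
  rw [List.perm_ext_iff_of_nodup (hnd.map σ.injective) hnd]
  intro y
  simp only [hall, iff_true]
  exact List.mem_map.2 ⟨σ.symm y, hall _, by simp⟩

/-- the sections of `V` are `lam (V y)⁻¹ g lam y` -/
private def Pow_good {Γ Y : Type} [Group Γ] (lam : Y → Γ) (V : Wr Γ Y) (g : Γ) : Prop :=
  ∀ y, V.sec y = (lam (V.perm y))⁻¹ * g * lam y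

private theorem Pow_good_one {Γ Y : Type} [Group Γ] (lam : Y → Γ) : Pow_good lam (1 : Wr Γ Y) 1 := by
  intro y
  simp

private theorem Pow_good_mul {Γ Y : Type} [Group Γ] {lam : Y → Γ} {V V' : Wr Γ Y} {g g' : Γ}
    (h : Pow_good lam V g) (h' : Pow_good lam V' g') : Pow_good lam (V * V') (g * g') := by
  intro y
  rw [Wr.mul_sec, h, h', Wr.mul_perm, Equiv.Perm.mul_apply]
  group

private theorem Pow_good_inv {Γ Y : Type} [Group Γ] {lam : Y → Γ} {V : Wr Γ Y} {g : Γ}
    (h : Pow_good lam V g) : Pow_good lam V⁻¹ g⁻¹ := by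
  intro y
  have h1 : V⁻¹.sec y = (V.sec (V.perm⁻¹ y))⁻¹ := rfl
  have h2 : V⁻¹.perm = V.perm⁻¹ := rfl
  have h3 : V.perm (V.perm⁻¹ y) = y := V.perm.apply_symm_apply y
  rw [h1, h2, h, h3]
  group

private theorem Pow_good_comm {Γ Y : Type} [Group Γ] {lam : Y → Γ} {V V' : Wr Γ Y} {g g' : Γ}
    (h : Pow_good lam V g) (h' : Pow_good lam V' g') : Pow_good lam ⁅V, V'⁆ ⁅g, g'⁆ := by
  rw [commutatorElement_def, commutatorElement_def]
  exact Pow_good_mul (Pow_good_mul (Pow_good_mul h h') (Pow_good_inv h)) (Pow_good_inv h')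

private theorem Pow_good_list {Γ Y : Type} [Group Γ] {lam : Y → Γ} (U : Γ → Wr Γ Y)
    (hU : ∀ a, Pow_good lam (U a) a) : ∀ l : List (Γ × Γ),
    Pow_good lam ((l.map (fun p => (U p.1, U p.2))).map (fun p => ⁅p.1, p.2⁆)).prod
      (l.map (fun p => ⁅p.1, p.2⁆)).prod
  | [] => Pow_good_one lam
  | p :: t => by
      rw [List.map_cons, List.map_cons, List.prod_cons, List.map_cons, List.prod_cons]
      exact Pow_good_mul (Pow_good_comm (hU _) (hU _)) (Pow_good_list U hU t)

/-- the product of all sections is `h ^ n` up to `3 n` commutators -/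
private theorem Pow_TT {Γ Y : Type} [Group Γ] (ys : List Y) (hnd : ys.Nodup) (hall : ∀ y, y ∈ ys)
    (lam : Y → Γ) (V : Wr Γ Y) (h : Γ) (hV : Pow_good lam V h) :
    CL (⊤ : Subgroup Γ) (3 * ys.length) (TT ys V * (h ^ ys.length)⁻¹) := by
  have e1 : TT ys V = (ys.flatMap (fun y => [(lam (V.perm y))⁻¹, h, lam y])).prod := by
    unfold TT
    clear hnd hall
    induction ys with
    | nil => rfl
    | cons y t ih =>
      rw [List.map_cons, List.prod_cons, List.flatMap_cons, List.prod_append, ih, hV]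
      simp [mul_assoc]
  have e2 : h ^ ys.length = (ys.flatMap (fun y => [(lam y)⁻¹, lam y, h])).prod := by
    clear hnd hall e1
    induction ys with
    | nil => simp
    | cons y t ih =>
      rw [List.length_cons, pow_succ', List.flatMap_cons, List.prod_append, ← ih]
      simp
  have hp : (ys.flatMap (fun y => [(lam (V.perm y))⁻¹, h, lam y])).Perm
      (ys.flatMap (fun y => [(lam y)⁻¹, lam y, h])) := by
    refine (Pow_triples ys (fun y => (lam (V.perm y))⁻¹) (fun _ => h) lam).trans ?_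
    refine List.Perm.trans ?_ (Pow_triples ys (fun y => (lam y)⁻¹) lam (fun _ => h)).symm
    refine List.Perm.append ?_ List.perm_append_comm
    have h1 := (Pow_ys ys hnd hall V.perm).map (fun y => (lam y)⁻¹)
    rw [List.map_map] at h1
    exact h1
  have h1 := CL.perm (K := (⊤ : Subgroup Γ)) hp (fun x _ => Subgroup.mem_top x)
  rw [← e1, ← e2] at h1
  have e3 : (ys.flatMap (fun y => [(lam (V.perm y))⁻¹, h, lam y])).length = 3 * ys.length := by
    clear hnd hall e1 e2 hp h1
    induction ys with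
    | nil => rfl
    | cons y t ih =>
      rw [List.flatMap_cons, List.length_append, ih]
      simp only [List.length_cons, List.length_nil]
      ring
  rw [e3] at h1
  exact h1

/-- Let `h = ∏_{i < c} [a_i, b_i]`, `F₀` a Følner set for the letters `a_i, b_i` with constant
`n₀ = 100 (c + 1) ^ 2`, `Y = F₀ × Fin (c + 1)`, `λ (f, i) = f`, `n = |Y| ≥ c + 1`. For a letter `a` let `π_a` be a
permutation of `F₀` with `π_a f = a f` whenever `a f ∈ F₀` (extend the partial injection), acting on the first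
coordinate of `Y`, and `U_a = (π_a, y ↦ λ(π_a y)⁻¹ a λ(y))`, with at most `n / n₀` nontrivial sections. The
product `U_h` of the `[U_{a_i}, U_{b_i}]` has permutation `π` and sections `λ(π y)⁻¹ h λ(y)`, so by `CL.perm` (a
list of `3 n` factors) `TT U_h` and `h ^ n` differ by `3 n` commutators. By `TT_CL` it is a product of at most
`c + c² 32 n / n₀ ≤ 2 n` commutators. -/
theorem exists_pow_of_folner {Γ : Type} [Group Γ] (hΓ : Folner Γ) {c : ℕ} {h : Γ}
    (hh : CL (⊤ : Subgroup Γ) c h) : ∃ n, 1 ≤ n ∧ CL (⊤ : Subgroup Γ) (5 * n) (h ^ n) := by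
  classical
  obtain ⟨l, hl, rfl⟩ := Pow_list hh
  obtain ⟨F₀, hne, hF⟩ := hΓ (l.map Prod.fst ++ l.map Prod.snd).toFinset (100 * ((c + 1) * (c + 1)))
  -- the permutations
  have hπ : ∀ a : Γ, ∃ π : Equiv.Perm {x // x ∈ F₀}, ∀ x : {x // x ∈ F₀}, a * x.1 ∈ F₀ → (π x).1 = a * x.1 := by
    intro a
    obtain ⟨g, hg⟩ := Finset.exists_equiv_extend_of_card_eq (α := {x // x ∈ F₀}) (t := F₀)
      (Fintype.card_coe F₀) (s := Finset.univ.filter fun x => a * x.1 ∈ F₀) (f := fun x => a * x.1)
      (by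
        intro y hy
        obtain ⟨x, hx, rfl⟩ := Finset.mem_image.1 hy
        exact (Finset.mem_filter.1 hx).2)
      (by
        intro x _ y _ hxy
        exact Subtype.ext (mul_left_cancel hxy))
    exact ⟨g, fun x hx => hg x (Finset.mem_filter.2 ⟨Finset.mem_univ _, hx⟩)⟩
  choose π hπ using hπ
  let Y := {x // x ∈ F₀} × Fin (c + 1)
  let lam : Y → Γ := fun y => y.1.1
  let U : Γ → Wr Γ Y := fun a =>
    ⟨Equiv.prodCongr (π a) (Equiv.refl _), fun y => (lam ((Equiv.prodCongr (π a) (Equiv.refl _)) y))⁻¹ * a * lam y⟩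
  have hU : ∀ a, Pow_good lam (U a) a := fun a y => rfl
  let ys : List Y := (Finset.univ : Finset Y).toList
  have hnd : ys.Nodup := Finset.nodup_toList _
  have hall : ∀ y, y ∈ ys := fun y => Finset.mem_toList.2 (Finset.mem_univ y)
  have hlen : ys.length = F₀.card * (c + 1) := by
    show ((Finset.univ : Finset Y).toList).length = _
    rw [Finset.length_toList, Finset.card_univ, Fintype.card_prod, Fintype.card_coe, Fintype.card_fin]
  have hF1 : 1 ≤ F₀.card := Finset.card_pos.2 hne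
  -- nontrivial sections
  have hnt : ∀ a ∈ (l.map Prod.fst ++ l.map Prod.snd).toFinset,
      nt (U a) ≤ ys.length / (100 * ((c + 1) * (c + 1))) := by
    intro a ha
    rw [Nat.le_div_iff_mul_le (by positivity)]
    have h1 := hF a ha
    have h2 : nt (U a) ≤ Set.ncard ({y : Γ | y ∈ F₀ ∧ a * y ∉ F₀} ×ˢ (Set.univ : Set (Fin (c + 1)))) := by
      refine Set.ncard_le_ncard_of_injOn (fun y : Y => (y.1.1, y.2)) ?_ ?_ ?_
      · intro y hy
        refine ⟨⟨y.1.2, ?_⟩, Set.mem_univ _⟩
        intro h3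
        apply hy
        show (lam ((Equiv.prodCongr (π a) (Equiv.refl _)) y))⁻¹ * a * lam y = 1
        have h4 : lam ((Equiv.prodCongr (π a) (Equiv.refl _)) y) = a * y.1.1 := hπ a y.1 h3
        rw [h4]
        show (a * y.1.1)⁻¹ * a * y.1.1 = 1
        group
      · rintro ⟨x, i⟩ _ ⟨x', i'⟩ _ hxy
        simp only [Prod.mk.injEq] at hxy
        exact Prod.ext (Subtype.ext hxy.1) hxy.2
      · refine Set.Finite.prod ?_ Set.finite_univ
        exact (Finset.finite_toSet F₀).subset fun y hy => hy.1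
    rw [Set.ncard_prod, Set.ncard_univ, Nat.card_eq_fintype_card, Fintype.card_fin] at h2
    rw [hlen]
    calc nt (U a) * (100 * ((c + 1) * (c + 1)))
        ≤ (Set.ncard {y : Γ | y ∈ F₀ ∧ a * y ∉ F₀} * (c + 1)) * (100 * ((c + 1) * (c + 1))) :=
          Nat.mul_le_mul_right _ h2
      _ = (100 * ((c + 1) * (c + 1)) * Set.ncard {y : Γ | y ∈ F₀ ∧ a * y ∉ F₀}) * (c + 1) := by ring
      _ ≤ F₀.card * (c + 1) := Nat.mul_le_mul_right _ h1
  generalize hd : ys.length / (100 * ((c + 1) * (c + 1))) = d at hnt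
  have hdn : d * (100 * ((c + 1) * (c + 1))) ≤ ys.length := by
    rw [← hd]
    exact Nat.div_mul_le_self _ _
  have key := (TT_CL ys hnd hall d (l.map (fun p => (U p.1, U p.2))) (by
    intro p hp
    obtain ⟨q, hq, rfl⟩ := List.mem_map.1 hp
    refine ⟨hnt _ ?_, hnt _ ?_⟩
    · rw [List.mem_toFinset, List.mem_append]
      exact Or.inl (List.mem_map.2 ⟨q, hq, rfl⟩)
    · rw [List.mem_toFinset, List.mem_append]
      exact Or.inr (List.mem_map.2 ⟨q, hq, rfl⟩))).2
  rw [List.length_map, hl] at key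
  have h3 := Pow_TT ys hnd hall lam _ _ (Pow_good_list U hU l)
  have h4 := (CL.inv h3).mul key
  have e : (TT ys ((l.map (fun p => (U p.1, U p.2))).map (fun p => ⁅p.1, p.2⁆)).prod *
      ((l.map (fun p => ⁅p.1, p.2⁆)).prod ^ ys.length)⁻¹)⁻¹ *
      TT ys ((l.map (fun p => (U p.1, U p.2))).map (fun p => ⁅p.1, p.2⁆)).prod =
      (l.map (fun p => ⁅p.1, p.2⁆)).prod ^ ys.length := by
    group
  rw [e] at h4
  refine ⟨ys.length, ?_, h4.mono ?_⟩
  · rw [hlen]
    exact Nat.mul_pos hF1 (Nat.succ_pos c)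
  · have h5 : c + 1 ≤ ys.length := by
      rw [hlen]
      exact Nat.le_mul_of_pos_left _ hF1
    have h6 : c * c * (32 * d) ≤ ys.length := by
      refine le_trans ?_ hdn
      nlinarith [Nat.zero_le (c * c * d), Nat.zero_le (c * d), Nat.zero_le d]
    omega

end Pool.Agent.VX
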