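import Pool.Agent.VX.Step
import Pool.Agent.VX.Orb

/-! Job VX-Reps. Existence of the local data, uniformly over all sequences of symbols. -/

namespace Pool.Agent.VX

open Pool.Agent.VW
open scoped commutatorElement

/-- Coset representatives: `f ↦ ` (permutation, sections modulo `[K,K]`) is a homomorphism from `F` to the
finite group `Wr (F ⧸ [K,K]) Y`; choose for each element of the image of `[K,K]` a preimage `t ∈ [K,K]`
(`CL.exists_of_mem`, `Len.exists_of_mem_closure`, finitely many `t` and `y`). -/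
theorem exists_cosets {F Y : Type} [Group F] [Finite Y] (Ψ : F →* Wr F Y)
    (K : Subgroup F) [K.Normal] (hfin : (⁅K, K⁆).FiniteIndex) {T : Set F} (hTs : ∀ t ∈ T, t⁻¹ ∈ T)
    (hT : Subgroup.closure T = ⊤) :
    ∃ C, ∀ g ∈ ⁅K, K⁆, ∃ t, CL K C t ∧ (∀ y, Len T C ((Ψ t⁻¹).sec y)) ∧ (Ψ (t⁻¹ * g)).perm = 1 ∧
      ∀ y, (Ψ (t⁻¹ * g)).sec y ∈ ⁅K, K⁆ := by
  classical
  have hQ : Finite (F ⧸ ⁅K, K⁆) := Subgroup.finite_quotient_of_finiteIndex
  let Φ : F →* Wr (F ⧸ ⁅K, K⁆) Y := (Wr.map (QuotientGroup.mk' ⁅K, K⁆)).comp Ψ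
  have h1 : ∀ w : Wr (F ⧸ ⁅K, K⁆) Y, ∃ t : F, t ∈ ⁅K, K⁆ ∧
      ((∃ g ∈ ⁅K, K⁆, Φ g = w) → Φ t = w) := by
    intro w
    by_cases h : ∃ g ∈ ⁅K, K⁆, Φ g = w
    · obtain ⟨g, hg, hw⟩ := h
      exact ⟨g, hg, fun _ => hw⟩
    · exact ⟨1, Subgroup.one_mem _, fun h' => absurd h' h⟩
  choose t ht1 ht2 using h1
  have h2 : ∀ w, ∃ c, CL K c (t w) := fun w => CL.exists_of_mem (ht1 w)
  choose c hc using h2
  have h3 : ∀ w y, ∃ m, Len T m ((Ψ (t w)⁻¹).sec y) := fun w y =>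
    Len.exists_of_mem_closure hTs (by rw [hT]; trivial)
  choose m hm using h3
  have i1 := Fintype.ofFinite (Wr (F ⧸ ⁅K, K⁆) Y)
  have i2 := Fintype.ofFinite Y
  refine ⟨(∑ w, c w) + ∑ w, ∑ y, m w y, fun g hg => ⟨t (Φ g), ?_, ?_, ?_, ?_⟩⟩
  · refine (hc (Φ g)).mono ?_
    have := Finset.single_le_sum (f := c) (fun _ _ => Nat.zero_le _) (Finset.mem_univ (Φ g))
    omega
  · intro y
    refine (hm (Φ g) y).mono ?_
    have e1 := Finset.single_le_sum (f := fun y => m (Φ g) y) (fun _ _ => Nat.zero_le _)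
      (Finset.mem_univ y)
    have e2 := Finset.single_le_sum (f := fun w => ∑ y, m w y) (fun _ _ => Nat.zero_le _)
      (Finset.mem_univ (Φ g))
    exact le_trans (le_trans e1 e2) (Nat.le_add_left _ _)
  · have h4 : Φ ((t (Φ g))⁻¹ * g) = 1 := by
      rw [map_mul, map_inv, ht2 (Φ g) ⟨g, hg, rfl⟩, inv_mul_cancel]
    have h5 := congrArg Wr.perm h4
    exact h5
  · intro y
    have h4 : Φ ((t (Φ g))⁻¹ * g) = 1 := by
      rw [map_mul, map_inv, ht2 (Φ g) ⟨g, hg, rfl⟩, inv_mul_cancel]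
    have h5 := congrFun (congrArg Wr.sec h4) y
    exact (QuotientGroup.eq_one_iff _).1 h5

theorem exists_good {F Y : Type} [Group F] [Fintype Y] [DecidableEq Y] (Ψ : F →* Wr F Y)
    (K : Subgroup F) [K.Normal] (hfin : (⁅K, K⁆).FiniteIndex) {T : Set F} (hTs : ∀ t ∈ T, t⁻¹ ∈ T)
    (hT : Subgroup.closure T = ⊤) (htr : ∀ y y', ∃ f, (Ψ f).perm y = y') :
    ∃ k C, Good Ψ K T k C ∧ Fintype.card Y ≤ K.index * k := by
  have hK : K.FiniteIndex := Subgroup.finiteIndex_of_le (Subgroup.commutator_le_left K K)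
  obtain ⟨r, s, k, hr, hs, hsr, hcard, hidx⟩ := exists_orbits Ψ K htr
  obtain ⟨C, hC⟩ := exists_cosets Ψ K hfin hTs hT
  have h3 : ∀ y, ∃ m, Len T m ((Ψ (s y)).sec y) := fun y =>
    Len.exists_of_mem_closure hTs (by rw [hT]; trivial)
  choose m hm using h3
  refine ⟨k, C + ∑ y, m y, ⟨r, s, hr, hs, hsr, hcard, fun y => (hm y).mono ?_, fun g hg => ?_⟩,
    hidx⟩
  · have := Finset.single_le_sum (f := m) (fun _ _ => Nat.zero_le _) (Finset.mem_univ y)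
    omega
  · obtain ⟨t, ht1, ht2, ht3⟩ := hC g hg
    exact ⟨t, ht1.mono (Nat.le_add_right _ _), fun y => (ht2 y).mono (Nat.le_add_right _ _), ht3⟩

/-- `iter ψ n ω` depends only on the first `n` symbols, so there are finitely many of them -/
theorem iter_range_finite {F X S : Type} [Group F] [Finite S] (ψ : S → F →* Wr F X) :
    ∀ n : ℕ, (Set.range (fun ω : ℕ → S => iter ψ n ω)).Finite := by
  intro n
  induction n with
  | zero =>
    refine (Set.finite_singleton (iter0 F)).subset ?_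
    rintro _ ⟨ω, rfl⟩
    exact rfl
  | succ n ih =>
    have h1 := Set.Finite.image2 (fun (s : S) (Φ : F →* Wr F (Wd X n)) =>
      ((join : Wr (Wr F (Wd X n)) X →* Wr F (X × Wd X n)).comp ((Wr.map Φ).comp (ψ s)) :
        F →* Wr F (Wd X (n + 1)))) (Set.finite_univ (α := S)) ih
    refine h1.subset ?_
    rintro _ ⟨ω, rfl⟩
    exact ⟨ω 0, trivial, iter ψ n (sh ω), ⟨sh ω, rfl⟩, rfl⟩

/-- uniform local data for all `ω` -/
theorem exists_good_all {F X S : Type} [Group F] [Finite X] [Finite S] (ψ : S → F →* Wr F X)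
    (K : Subgroup F) [K.Normal] (hfin : (⁅K, K⁆).FiniteIndex) {T : Set F} (hTs : ∀ t ∈ T, t⁻¹ ∈ T)
    (hT : Subgroup.closure T = ⊤) (n : ℕ) [Fintype (Wd X n)] [DecidableEq (Wd X n)]
    (htr : ∀ (ω : ℕ → S) (y y' : Wd X n), ∃ f, (iter ψ n ω f).perm y = y') :
    ∃ C, ∀ ω : ℕ → S, ∃ k, Good (iter ψ n ω) K T k C ∧ Fintype.card (Wd X n) ≤ K.index * k := by
  classical
  have hR := iter_range_finite ψ n
  have h1 : ∀ Φ : F →* Wr F (Wd X n), ∃ C, Φ ∈ Set.range (fun ω : ℕ → S => iter ψ n ω) →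
      ∃ k, Good Φ K T k C ∧ Fintype.card (Wd X n) ≤ K.index * k := by
    intro Φ
    by_cases h : Φ ∈ Set.range (fun ω : ℕ → S => iter ψ n ω)
    · obtain ⟨ω, hω⟩ := h
      obtain ⟨k, C, h2, h3⟩ := exists_good Φ K hfin hTs hT (by
        intro y y'
        rw [← hω]
        exact htr ω y y')
      exact ⟨C, fun _ => ⟨k, h2, h3⟩⟩
    · exact ⟨0, fun h' => absurd h' h⟩
  choose f hf using h1
  refine ⟨∑ Φ ∈ hR.toFinset, f Φ, fun ω => ?_⟩
  have hω : iter ψ n ω ∈ Set.range (fun ω : ℕ → S => iter ψ n ω) := ⟨ω, rfl⟩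
  obtain ⟨k, h2, h3⟩ := hf (iter ψ n ω) hω
  refine ⟨k, h2.mono ?_, h3⟩
  exact Finset.single_le_sum (f := f) (fun _ _ => Nat.zero_le _) (hR.mem_toFinset.2 hω)

end Pool.Agent.VX
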