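import Pool.Agent.VX.Perm

/-! Job VX-Schreier. A priori bounds for the number of commutators in terms of the length. -/

namespace Pool.Agent.VX

open Pool.Agent.VW
open scoped commutatorElement

private theorem exists_rep {F : Type} [Group F] (D : Subgroup F) [D.FiniteIndex] :
    ∃ ρ : F → F, (Set.range ρ).Finite ∧ (∀ g, g * (ρ g)⁻¹ ∈ D) ∧ ∀ g ∈ D, ρ g = 1 := by
  classical
  have : Finite (F ⧸ D) := Subgroup.finite_quotient_of_finiteIndex
  refine ⟨fun g => if g ∈ D then 1 else ((QuotientGroup.mk g⁻¹ : F ⧸ D).out)⁻¹, ?_, ?_, ?_⟩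
  · refine ((Set.finite_singleton (1 : F)).union (Set.finite_range fun x : F ⧸ D => x.out⁻¹)).subset ?_
    rintro _ ⟨g, rfl⟩
    by_cases h : g ∈ D
    · left
      simp [h]
    · right
      exact ⟨QuotientGroup.mk g⁻¹, by simp [h]⟩
  · intro g
    by_cases h : g ∈ D
    · simp [h]
    · simp only [h, if_false, inv_inv]
      have h1 : (QuotientGroup.mk g⁻¹ : F ⧸ D) = QuotientGroup.mk ((QuotientGroup.mk g⁻¹ : F ⧸ D).out) :=
        (QuotientGroup.out_eq' _).symm
      have h2 := QuotientGroup.eq.1 h1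
      rwa [inv_inv] at h2
  · intro g h
    simp [h]

/-- Schreier rewriting: choose representatives `ρ` of the right cosets of `D` with `ρ = 1` on `D`; for
`g = t₁ ⋯ t_m ∈ D`, `p_j = t₁ ⋯ t_j`: `g = ∏ ρ(p_{j-1}) t_j ρ(p_j)⁻¹`, and the factors lie in a finite subset of
`D`. -/
theorem schreier {F : Type} [Group F] (D : Subgroup F) [D.FiniteIndex] {T : Set F} (hT : T.Finite) :
    ∃ Q : Set F, Q.Finite ∧ Q ⊆ D ∧ ∀ m g, g ∈ D → Len T m g → Len Q m g := by
  obtain ⟨ρ, h1, h2, h3⟩ := exists_rep D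
  refine ⟨{x | x ∈ D ∧ ∃ r ∈ Set.range ρ, ∃ t ∈ T, ∃ r' ∈ Set.range ρ, x = r * t * r'⁻¹}, ?_, ?_, ?_⟩
  · have h4 : (Set.image2 (fun a b => a * b) (Set.image2 (fun a b => a * b) (Set.range ρ) T)
        ((fun a => a⁻¹) '' Set.range ρ)).Finite :=
      Set.Finite.image2 _ (Set.Finite.image2 _ h1 hT) (h1.image _)
    refine h4.subset ?_
    rintro x ⟨-, r, hr, t, ht, r', hr', rfl⟩
    exact ⟨r * t, ⟨r, hr, t, ht, rfl⟩, r'⁻¹, ⟨r', hr', rfl⟩, rfl⟩
  · rintro x ⟨h, -⟩
    exact h
  · rintro m g hg ⟨l, hl, hlT, rfl⟩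
    have key : ∀ l : List F, (∀ x ∈ l, x ∈ T) →
        Len {x | x ∈ D ∧ ∃ r ∈ Set.range ρ, ∃ t ∈ T, ∃ r' ∈ Set.range ρ, x = r * t * r'⁻¹} l.length
          (l.prod * (ρ l.prod)⁻¹) := by
      intro l
      induction l using List.reverseRecOn with
      | nil =>
        intro _
        rw [List.prod_nil, h3 1 D.one_mem, inv_one, mul_one]
        exact Len.one _
      | append_singleton l t ih =>
        intro hx
        have h5 := ih fun y hy => hx y (List.mem_append_left _ hy)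
        have ht : t ∈ T := hx t (List.mem_append_right _ (List.mem_singleton_self t))
        have h6 : ρ l.prod * t * (ρ (l ++ [t]).prod)⁻¹ ∈
            {x | x ∈ D ∧ ∃ r ∈ Set.range ρ, ∃ t ∈ T, ∃ r' ∈ Set.range ρ, x = r * t * r'⁻¹} := by
          refine ⟨?_, _, ⟨_, rfl⟩, t, ht, _, ⟨_, rfl⟩, rfl⟩
          have h7 := D.mul_mem (D.inv_mem (h2 l.prod)) (h2 (l ++ [t]).prod)
          have h8 : (l.prod * (ρ l.prod)⁻¹)⁻¹ * ((l ++ [t]).prod * (ρ (l ++ [t]).prod)⁻¹) =
              ρ l.prod * t * (ρ (l ++ [t]).prod)⁻¹ := by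
            generalize ρ (l ++ [t]).prod = b
            rw [List.prod_append, List.prod_singleton]
            group
          rwa [h8] at h7
        have h9 := h5.mul (Len.of_mem h6)
        have h10 : l.prod * (ρ l.prod)⁻¹ * (ρ l.prod * t * (ρ (l ++ [t]).prod)⁻¹) =
            (l ++ [t]).prod * (ρ (l ++ [t]).prod)⁻¹ := by
          generalize ρ (l ++ [t]).prod = b
          rw [List.prod_append, List.prod_singleton]
          group
        rw [h10] at h9
        rwa [List.length_append, List.length_singleton]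
    have h4 := key l hlT
    rw [h3 _ hg, inv_one, mul_one] at h4
    exact h4.mono hl

/-- linear bound -/
theorem linear_bound {F : Type} [Group F] (K : Subgroup F) (hfin : (⁅K, K⁆).FiniteIndex) {T : Set F}
    (hT : T.Finite) : ∃ C, ∀ m g, g ∈ ⁅K, K⁆ → Len T m g → CL K (C * m) g := by
  have := hfin
  obtain ⟨Q, hQ, hQD, h⟩ := schreier (⁅K, K⁆) hT
  obtain ⟨C, hC⟩ : ∃ C, ∀ x ∈ Q, CL K C x := by
    have h1 : ∀ x ∈ Q, ∃ c, CL K c x := fun x hx => CL.exists_of_mem (hQD hx)
    choose! c hc using h1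
    obtain ⟨C, hC⟩ := (hQ.image c).bddAbove
    exact ⟨C, fun x hx => (hc x hx).mono (hC ⟨x, hx, rfl⟩)⟩
  refine ⟨C, fun m g hg hm => ?_⟩
  obtain ⟨l, h1, h2, rfl⟩ := h m g hg hm
  have key : ∀ l : List F, (∀ x ∈ l, x ∈ Q) → CL K (C * l.length) l.prod := by
    intro l
    induction l with
    | nil =>
      intro _
      exact CL.one _
    | cons x l ih =>
      intro hx
      have h3 := (hC x (hx x List.mem_cons_self)).mul (ih fun y hy => hx y (List.mem_cons_of_mem x hy))
      rw [List.prod_cons, List.length_cons]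
      have h4 : C * (l.length + 1) = C + C * l.length := by ring
      rwa [h4]
  exact (key l h2).mono (Nat.mul_le_mul_left _ h1)

end Pool.Agent.VX
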