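import Pool.Agent.VX.Defs
import Pool.Agent.VX.Basic

/-! Job VX-Shrink. Lengths of sections. -/

namespace Pool.Agent.VX

open Pool.Agent.VW

/-- Average contraction with an arbitrarily small factor `1 / (2 ι)`, at arbitrarily deep levels: if `g`
is a product of `m` elements of `T` then its sections at level `N` are products of `ℓ y` elements of `T`, where
`2 ι ∑ ℓ y ≤ |X| ^ N m + C`. -/
def Shrinks {F X S : Type} [Group F] (ψ : S → F →* Wr F X) (T : Set F) : Prop :=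
  ∀ ι N₀ : ℕ, ∃ N, N₀ ≤ N ∧ ∃ C : ℕ, ∀ (ω : ℕ → S) (m : ℕ) (g : F), Len T m g →
    ∃ ℓ : Wd X N → ℕ, (∀ y, Len T (ℓ y) ((iter ψ N ω g).sec y)) ∧
      ∀ J : Finset (Wd X N), 2 * ι * ∑ y ∈ J, ℓ y ≤ Nat.card (Wd X N) * m + C

/-- sections of products of `m` states are products of `m` states -/
theorem len_automaton {F X S : Type} [Group F] (ψ : S → F →* Wr F X) {T : Set F}
    (hT : ∀ s, ∀ t ∈ T, ∀ x, (ψ s t).sec x ∈ T) (n : ℕ) (ω : ℕ → S) (m : ℕ) (g : F)
    (hg : Len T m g) (y : Wd X n) : Len T m ((iter ψ n ω g).sec y) := by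
  have key : ∀ (n : ℕ) (ω : ℕ → S) (t : F), t ∈ T → ∀ y : Wd X n, (iter ψ n ω t).sec y ∈ T := by
    intro n
    induction n with
    | zero =>
      intro ω t ht y
      exact ht
    | succ n ih =>
      rintro ω t ht ⟨x, w⟩
      rw [iter_succ_sec]
      exact ih (sh ω) _ (hT _ t ht x) w
  have hl : ∀ l : List F, (∀ x ∈ l, x ∈ T) → ∀ y : Wd X n,
      ∃ l' : List F, l'.length = l.length ∧ (∀ x ∈ l', x ∈ T) ∧ l'.prod = (iter ψ n ω l.prod).sec y := by
    intro l
    induction l with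
    | nil =>
      intro _ y
      refine ⟨[], rfl, fun x hx => by simp at hx, ?_⟩
      rw [List.prod_nil, map_one]
      rfl
    | cons a l ih =>
      intro h y
      obtain ⟨l', h1, h2, h3⟩ := ih (fun x hx => h x (List.mem_cons_of_mem _ hx)) y
      refine ⟨(iter ψ n ω a).sec ((iter ψ n ω l.prod).perm y) :: l', ?_, ?_, ?_⟩
      · rw [List.length_cons, List.length_cons, h1]
      · intro x hx
        rcases List.mem_cons.1 hx with rfl | hx
        · exact key n ω a (h a List.mem_cons_self) _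
        · exact h2 x hx
      · rw [List.prod_cons, List.prod_cons, h3, map_mul]
        rfl
  obtain ⟨l, h1, h2, rfl⟩ := hg
  obtain ⟨l', h3, h4, h5⟩ := hl l h2 y
  exact ⟨l', by rw [h3]; exact h1, h4, h5⟩

/-- The union of `T` and `T⁻¹` is again an automaton (`Wr.inv_sec`); if `t` has a trivial section at `y`
then `t⁻¹` has one at `t y`. -/
theorem automaton_symm {F X S : Type} [Group F] (ψ : S → F →* Wr F X) {T : Set F}
    (hT : Automaton ψ T) : ∃ T' : Set F, Automaton ψ T' ∧ (∀ t ∈ T', t⁻¹ ∈ T') ∧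
      (ReachesOne ψ T → ReachesOne ψ T') := by
  obtain ⟨h1, h2, h3⟩ := hT
  refine ⟨{t | t ∈ T ∨ t⁻¹ ∈ T}, ⟨?_, ?_, ?_⟩, ?_, ?_⟩
  · have h4 : {t : F | t ∈ T ∨ t⁻¹ ∈ T} ⊆ T ∪ (fun t => t⁻¹) '' T := by
      rintro t (ht | ht)
      · exact Or.inl ht
      · exact Or.inr ⟨t⁻¹, ht, inv_inv t⟩
    exact (h1.union (h1.image _)).subset h4
  · rw [eq_top_iff, ← h2]
    exact Subgroup.closure_mono fun t ht => Or.inl ht
  · rintro s t (ht | ht) x
    · exact Or.inl (h3 s t ht x)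
    · right
      have h4 : ψ s t = (ψ s t⁻¹)⁻¹ := by rw [map_inv, inv_inv]
      rw [h4, Wr.inv_sec, inv_inv]
      exact h3 s _ ht _
  · rintro t (ht | ht)
    · right
      rw [inv_inv]
      exact ht
    · exact Or.inl ht
  · rintro ⟨n, hn⟩
    refine ⟨n, ?_⟩
    rintro ω t (ht | ht)
    · exact hn ω t ht
    · obtain ⟨y, hy⟩ := hn ω _ ht
      refine ⟨(iter ψ n ω t⁻¹).perm y, ?_⟩
      have h4 : iter ψ n ω t = (iter ψ n ω t⁻¹)⁻¹ := by rw [map_inv, inv_inv]
      have h5 : (iter ψ n ω t⁻¹).perm⁻¹ ((iter ψ n ω t⁻¹).perm y) = y := by simp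
      rw [h4, Wr.inv_sec, h5, hy, inv_one]

end Pool.Agent.VX
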