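import Pool.Agent.VX.Split

/-! Job VX-Step. The recursion step. -/

namespace Pool.Agent.VX

open Pool.Agent.VW
open scoped commutatorElement

/-- every element of `[K,K]` of length at most `m` is, modulo `N`, a product of `c` commutators of
elements of `K` -/
def PB {F : Type} [Group F] (N K : Subgroup F) (T : Set F) (m c : ℕ) : Prop :=
  ∀ g ∈ ⁅K, K⁆, Len T m g → CM N K c g

/-- Uniform local data of the homomorphism `Ψ`, with orbits (fibres of `r`) of size `k` and with all
constants bounded by `C`: representatives `r y` of the orbits of `K` on `Y`, elements `s y ∈ K` moving `y`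
to `r y`, and coset representatives `t` of `[K,K]` modulo `{f : trivial on Y, sections in [K,K]}`. -/
def Good {F Y : Type} [Group F] [Fintype Y] [DecidableEq Y] (Ψ : F →* Wr F Y) (K : Subgroup F)
    (T : Set F) (k C : ℕ) : Prop :=
  ∃ (r : Y → Y) (s : Y → F), (∀ y, r (r y) = r y) ∧ (∀ y, s y ∈ K) ∧
    (∀ y, (Ψ (s y)).perm y = r y) ∧ (∀ y, (Finset.univ.filter (fun z => r z = r y)).card = k) ∧
    (∀ y, Len T C ((Ψ (s y)).sec y)) ∧
    ∀ g ∈ ⁅K, K⁆, ∃ t, CL K C t ∧ (∀ y, Len T C ((Ψ t⁻¹).sec y)) ∧ (Ψ (t⁻¹ * g)).perm = 1 ∧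
      ∀ y, (Ψ (t⁻¹ * g)).sec y ∈ ⁅K, K⁆

theorem Good.mono {F Y : Type} [Group F] [Fintype Y] [DecidableEq Y] {Ψ : F →* Wr F Y}
    {K : Subgroup F} {T : Set F} {k C C' : ℕ} (hC : C ≤ C') (h : Good Ψ K T k C) :
    Good Ψ K T k C' := by
  obtain ⟨r, s, h1, h2, h3, h4, h5, h6⟩ := h
  refine ⟨r, s, h1, h2, h3, h4, fun y => (h5 y).mono hC, fun g hg => ?_⟩
  obtain ⟨t, ht1, ht2, ht3⟩ := h6 g hg
  exact ⟨t, ht1.mono hC, fun y => (ht2 y).mono hC, ht3⟩

/-- the length of the product over a list of conjugates -/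
private theorem step_len {F Y : Type} [Group F] {T : Set F} (x : Y → F) (a : Y → ℕ) :
    ∀ l : List Y, (∀ z ∈ l, Len T (a z) (x z)) → Len T ((l.map a).sum) (l.map x).prod
  | [], _ => by
      simpa using (Len.one 0 : Len T 0 (1 : F))
  | z :: l, h => by
      rw [List.map_cons, List.map_cons, List.sum_cons, List.prod_cons]
      exact (h z List.mem_cons_self).mul (step_len x a l fun y hy => h y (List.mem_cons_of_mem _ hy))

/-- The recursion step. `g = t * g'`; `κ y = (Ψ g').sec y ∈ [K,K]` has length at most `ℓ y + C`; transport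
(`Lvl.transport` with `ys = Finset.univ.toList`) gives `g' = E * g''` (same image under `Ψ`, hence equal modulo
`N`), the section of `g''` at a representative `y` is in `[K,K]` and has length at most
`∑ z with r z = y, (ℓ z + 3 C) ≤ m'`, so it is `CM M K c` by `hP`; the other sections are `1`. Apply
`Lvl.split` to `g''`. -/
theorem Lvl.step {F Y : Type} [Group F] {K N M : Subgroup F} [K.Normal] [N.Normal] [M.Normal]
    [Fintype Y] [DecidableEq Y] (Λ : Lvl F Y K N M) {T : Set F} (hTs : ∀ t ∈ T, t⁻¹ ∈ T) {k C : ℕ}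
    (hG : Good Λ.Ψ K T k C) {m m' c q : ℕ}
    (hℓ : ∀ g, Len T m g → ∃ ℓ : Y → ℕ, (∀ y, Len T (ℓ y) ((Λ.Ψ g).sec y)) ∧
      ∀ J : Finset Y, J.card = k → ∑ z ∈ J, (ℓ z + 3 * C) ≤ m')
    (hP : PB M K T m' c) (hc : c ≤ k * q) : PB N K T m (C + 2 * Fintype.card Y + q) := by
  intro g hg hgm
  obtain ⟨r, s, hr, hs, hsr, hcard, hsl, hcos⟩ := hG
  obtain ⟨t, htC, htl, htp, hts⟩ := hcos g hg
  obtain ⟨ℓ, hℓ1, hℓ2⟩ := hℓ g hgm
  have hKK : ⁅K, K⁆ ≤ K := Subgroup.commutator_le_left K K
  have hκl : ∀ y, Len T (C + ℓ y) ((Λ.Ψ (t⁻¹ * g)).sec y) := by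
    intro y
    rw [map_mul, Wr.mul_sec]
    exact (htl _).mul (hℓ1 y)
  obtain ⟨E, hE, g', hg', h1, h2⟩ := Λ.transport Finset.univ.toList (Finset.nodup_toList _)
    (fun y => Finset.mem_toList.mpr (Finset.mem_univ y)) r s hs hsr (fun y => (Λ.Ψ (t⁻¹ * g)).sec y)
    (fun y => hKK (hts y))
  have hbase : Λ.Ψ (t⁻¹ * g) = base (fun y => (Λ.Ψ (t⁻¹ * g)).sec y) := by
    apply Wr.ext
    · exact htp
    · rfl
  have hmem : ∀ y, ((Finset.univ.toList.filter (fun z => decide (r z = y))).map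
      (fun z => (Λ.Ψ (s z)).sec z * (Λ.Ψ (t⁻¹ * g)).sec z * ((Λ.Ψ (s z)).sec z)⁻¹)).prod ∈ ⁅K, K⁆ := by
    intro y
    refine Subgroup.list_prod_mem _ ?_
    intro x hx
    obtain ⟨z, _, rfl⟩ := List.mem_map.mp hx
    exact Subgroup.Normal.conj_mem inferInstance _ (hts z) _
  have hlen : ∀ y, Len T (((Finset.univ.toList.filter (fun z => decide (r z = y))).map
      (fun z => ℓ z + 3 * C)).sum) ((Finset.univ.toList.filter (fun z => decide (r z = y))).map
      (fun z => (Λ.Ψ (s z)).sec z * (Λ.Ψ (t⁻¹ * g)).sec z * ((Λ.Ψ (s z)).sec z)⁻¹)).prod := by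
    intro y
    refine step_len _ _ _ ?_
    intro z _
    have h3 := ((hsl z).mul (hκl z)).mul ((hsl z).inv hTs)
    exact h3.mono (by omega)
  have hsum : ∀ y, ((Finset.univ.toList.filter (fun z => decide (r z = y))).map
      (fun z => ℓ z + 3 * C)).sum = ∑ z ∈ Finset.univ.filter (fun z => r z = y), (ℓ z + 3 * C) := by
    intro y
    rw [← List.sum_toFinset _ ((Finset.nodup_toList _).filter _)]
    refine Finset.sum_congr ?_ fun _ _ => rfl
    ext z
    simp
  have hCM : ∀ y, CM M K c (((Finset.univ.toList.filter (fun z => decide (r z = y))).map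
      (fun z => (Λ.Ψ (s z)).sec z * (Λ.Ψ (t⁻¹ * g)).sec z * ((Λ.Ψ (s z)).sec z)⁻¹)).prod) := by
    intro y
    by_cases hy : r y = y
    · refine hP _ (hmem y) ((hlen y).mono ?_)
      rw [hsum y]
      refine hℓ2 _ ?_
      have h3 := hcard y
      rw [hy] at h3
      exact h3
    · have h3 : Finset.univ.toList.filter (fun z => decide (r z = y)) = [] := by
        rw [List.filter_eq_nil_iff]
        intro z _ hz
        have hz' : r z = y := of_decide_eq_true hz
        apply hy
        rw [← hz', hr]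
      rw [h3]
      exact CM.of_CL (CL.one c)
  have hsplit := Λ.split r hr s hs hsr (k := k) (q := q) (c := c) (fun y => (hcard y).ge) hc _
    (fun y hy => by
      have h3 : Finset.univ.toList.filter (fun z => decide (r z = y)) = [] := by
        rw [List.filter_eq_nil_iff]
        intro z _ hz
        have hz' : r z = y := of_decide_eq_true hz
        apply hy
        rw [← hz', hr]
      rw [h3]
      rfl) hCM h2
  have hlen2 : (Finset.univ.toList : List Y).length = Fintype.card Y := by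
    rw [Finset.length_toList, Finset.card_univ]
  rw [hlen2] at hE
  have h4 : CM N K (Fintype.card Y + (Fintype.card Y + q)) (t⁻¹ * g) := by
    refine CM.congr ((CM.of_CL hE).mul hsplit) ?_
    rw [Λ.mem, map_mul, map_inv, h1, ← hbase, inv_mul_cancel]
    exact ⟨rfl, fun y => M.one_mem⟩
  have h5 := (CM.of_CL (N := N) htC).mul h4
  rw [mul_inv_cancel_left] at h5
  exact h5.mono (by omega)

end Pool.Agent.VX
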