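import Pool.Agent.VX.Perm

/-! Job VX-TT. The product of all sections of an element of a wreath product. -/

namespace Pool.Agent.VX

open Pool.Agent.VW
open scoped commutatorElement

section TT

variable {Γ Y : Type} [Group Γ]

/-- the product of all sections -/
def TT (ys : List Y) (V : Wr Γ Y) : Γ := (ys.map V.sec).prod

/-- the number of nontrivial sections -/
noncomputable def nt (V : Wr Γ Y) : ℕ := Set.ncard {y | V.sec y ≠ 1}

private theorem ncard_perm (σ : Equiv.Perm Y) (f : Y → Γ) :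
    Set.ncard {y | f (σ y) ≠ 1} = Set.ncard {y | f y ≠ 1} := by
  have h : {y | f y ≠ 1} = σ '' {y | f (σ y) ≠ 1} := by
    ext y
    constructor
    · intro hy
      exact ⟨σ.symm y, by simpa using hy, by simp⟩
    · rintro ⟨z, hz, rfl⟩
      exact hz
  rw [h, Set.ncard_image_of_injective _ σ.injective]

theorem nt_mul [Finite Y] (V V' : Wr Γ Y) : nt (V * V') ≤ nt V + nt V' := by
  have h1 : {y | (V * V').sec y ≠ 1} ⊆ {y | V.sec (V'.perm y) ≠ 1} ∪ {y | V'.sec y ≠ 1} := by
    intro y hy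
    by_contra hc
    simp only [Set.mem_union, Set.mem_ofPred_eq, not_or, not_not] at hc
    apply hy
    rw [Wr.mul_sec, hc.1, hc.2, mul_one]
  calc nt (V * V') ≤ Set.ncard ({y | V.sec (V'.perm y) ≠ 1} ∪ {y | V'.sec y ≠ 1}) :=
        Set.ncard_le_ncard h1 (Set.toFinite _)
    _ ≤ Set.ncard {y | V.sec (V'.perm y) ≠ 1} + Set.ncard {y | V'.sec y ≠ 1} :=
        Set.ncard_union_le _ _
    _ = nt V + nt V' := by rw [ncard_perm V'.perm V.sec]; rfl

theorem nt_inv [Finite Y] (V : Wr Γ Y) : nt V⁻¹ = nt V := by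
  unfold nt
  rw [← ncard_perm V.perm⁻¹ V.sec]
  congr 1
  ext y
  simp

private theorem filter_map_len [DecidableEq Γ] (ys : List Y) (hnd : ys.Nodup)
    (hall : ∀ y, y ∈ ys) (f : Y → Γ) :
    ((ys.map f).filter (fun x => decide (x ≠ 1))).length = Set.ncard {y | f y ≠ 1} := by
  classical
  have h1 : {y | f y ≠ 1} = ((ys.filter (fun y => decide (f y ≠ 1))).toFinset : Set Y) := by
    ext y
    simp [hall y]
  rw [h1, Set.ncard_coe_finset, List.toFinset_card_of_nodup (hnd.filter _), List.filter_map,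
    List.length_map]
  rfl

private theorem perm_ys (ys : List Y) (hnd : ys.Nodup) (hall : ∀ y, y ∈ ys)
    (σ : Equiv.Perm Y) : (ys.map σ).Perm ys := by
  classical
  rw [List.perm_ext_iff_of_nodup (hnd.map σ.injective) hnd]
  intro y
  simp only [hall, iff_true]
  exact List.mem_map.2 ⟨σ.symm y, hall _, by simp⟩

private theorem prod_pairs (ys : List Y) (f g : Y → Γ) :
    (ys.map (fun y => f y * g y)).prod = (ys.flatMap (fun y => [f y, g y])).prod := by
  induction ys with
  | nil => rfl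
  | cons y t ih => simp [ih, mul_assoc]

omit [Group Γ] in
private theorem perm_pairs (ys : List Y) (f g : Y → Γ) :
    (ys.flatMap (fun y => [f y, g y])).Perm (ys.map f ++ ys.map g) := by
  induction ys with
  | nil => exact List.Perm.refl _
  | cons y t ih =>
    simp only [List.flatMap_cons, List.map_cons, List.cons_append, List.nil_append]
    refine List.Perm.cons _ ?_
    exact (List.Perm.cons _ ih).trans List.perm_middle.symm

/-- both products have the same nontrivial factors (`CL.perm_ne`, `CL.mono`) -/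
theorem TT_mul (ys : List Y) (hnd : ys.Nodup) (hall : ∀ y, y ∈ ys) (V V' : Wr Γ Y) :
    CL (⊤ : Subgroup Γ) (nt V + nt V') (TT ys (V * V') * (TT ys V * TT ys V')⁻¹) := by
  classical
  have hp : (ys.flatMap (fun y => [V.sec (V'.perm y), V'.sec y])).Perm
      (ys.map V.sec ++ ys.map V'.sec) := by
    refine (perm_pairs ys (fun y => V.sec (V'.perm y)) V'.sec).trans ?_
    refine List.Perm.append_right _ ?_
    have := (perm_ys ys hnd hall V'.perm).map V.sec
    rw [List.map_map] at this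
    exact this
  have hf := hp.filter (fun x => decide (x ≠ 1))
  have h1 := CL.perm_ne (K := (⊤ : Subgroup Γ)) hf (fun x _ => Subgroup.mem_top x)
  have hlen : ((ys.flatMap (fun y => [V.sec (V'.perm y), V'.sec y])).filter
      (fun x => decide (x ≠ 1))).length = nt V + nt V' := by
    rw [hf.length_eq, List.filter_append, List.length_append, filter_map_len ys hnd hall,
      filter_map_len ys hnd hall]
    rfl
  rw [hlen, List.prod_append, ← prod_pairs] at h1
  exact h1

theorem TT_inv (ys : List Y) (hnd : ys.Nodup) (hall : ∀ y, y ∈ ys) (V : Wr Γ Y) :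
    CL (⊤ : Subgroup Γ) (nt V) (TT ys V⁻¹ * TT ys V) := by
  classical
  have hp : (ys.map V⁻¹.sec).Perm ((ys.map V.sec).map (fun x => x⁻¹)).reverse := by
    refine List.Perm.trans ?_ (List.reverse_perm _).symm
    rw [List.map_map]
    have := (perm_ys ys hnd hall V.perm⁻¹).map (fun y => (V.sec y)⁻¹)
    rw [List.map_map] at this
    exact this
  have hf := hp.filter (fun x => decide (x ≠ 1))
  have h1 := CL.perm_ne (K := (⊤ : Subgroup Γ)) hf (fun x _ => Subgroup.mem_top x)
  have h2 : Set.ncard {y | V⁻¹.sec y ≠ 1} = nt V := by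
    by_cases hY : Finite Y
    · exact nt_inv V
    · exact absurd (Set.finite_univ_iff.1 ((List.finite_toSet ys).subset
        (fun y _ => hall y))) hY
  rw [filter_map_len ys hnd hall, h2, ← List.prod_inv_reverse, inv_inv] at h1
  exact h1

private theorem R_trans {c d : ℕ} {x y z : Γ} (h : CL (⊤ : Subgroup Γ) c (x * y⁻¹))
    (h' : CL (⊤ : Subgroup Γ) d (y * z⁻¹)) : CL (⊤ : Subgroup Γ) (c + d) (x * z⁻¹) := by
  have := h.mul h'
  have e : x * y⁻¹ * (y * z⁻¹) = x * z⁻¹ := by group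
  rwa [e] at this

private theorem R_right {c : ℕ} {x y : Γ} (h : CL (⊤ : Subgroup Γ) c (x * y⁻¹)) (z : Γ) :
    CL (⊤ : Subgroup Γ) c (x * z * (y * z)⁻¹) := by
  have e : x * z * (y * z)⁻¹ = x * y⁻¹ := by group
  rwa [e]

private theorem R_left {c : ℕ} {x y : Γ} (h : CL (⊤ : Subgroup Γ) c (x * y⁻¹)) (z : Γ) :
    CL (⊤ : Subgroup Γ) c (z * x * (z * y)⁻¹) := by
  have e : z * x * (z * y)⁻¹ = z * (x * y⁻¹) * z⁻¹ := by group
  rw [e]
  exact CL.conj h z

private theorem finite_of_all (ys : List Y) (hall : ∀ y, y ∈ ys) : Finite Y :=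
  Set.finite_univ_iff.1 ((List.finite_toSet ys).subset (fun y _ => hall y))

/-- `TT ⁅V, V'⁆` is the commutator of `TT V` and `TT V'` up to `8 (nt V + nt V')` commutators -/
theorem TT_comm (ys : List Y) (hnd : ys.Nodup) (hall : ∀ y, y ∈ ys) (V V' : Wr Γ Y) :
    CL (⊤ : Subgroup Γ) (1 + 8 * (nt V + nt V')) (TT ys ⁅V, V'⁆) := by
  have := finite_of_all ys hall
  have a1 := TT_mul ys hnd hall (V * V' * V⁻¹) V'⁻¹
  have a2 := TT_mul ys hnd hall (V * V') V⁻¹
  have a3 := TT_mul ys hnd hall V V'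
  have a4 : CL (⊤ : Subgroup Γ) (nt V) (TT ys V⁻¹ * ((TT ys V)⁻¹)⁻¹) := by
    rw [inv_inv]; exact TT_inv ys hnd hall V
  have a5 : CL (⊤ : Subgroup Γ) (nt V') (TT ys V'⁻¹ * ((TT ys V')⁻¹)⁻¹) := by
    rw [inv_inv]; exact TT_inv ys hnd hall V'
  have b1 := nt_mul (V * V') V⁻¹
  have b2 := nt_mul V V'
  have b3 : nt V⁻¹ = nt V := nt_inv V
  have b4 : nt V'⁻¹ = nt V' := nt_inv V'
  -- T(VV'V⁻¹V'⁻¹) ~ T(VV'V⁻¹) T(V'⁻¹) ~ (T(VV') T(V⁻¹)) T(V'⁻¹) ~ ...
  have c1 := R_trans a1 (R_right (R_trans a2 (R_trans (R_right a3 (TT ys V⁻¹))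
    (R_left a4 (TT ys V * TT ys V')))) (TT ys V'⁻¹))
  have c2 := R_trans c1 (R_left a5 (TT ys V * TT ys V' * (TT ys V)⁻¹))
  have c3 : CL (⊤ : Subgroup Γ) 1 (TT ys V * TT ys V' * (TT ys V)⁻¹ * (TT ys V')⁻¹) := by
    rw [← commutatorElement_def]
    exact CL.of_comm (Subgroup.mem_top _) (Subgroup.mem_top _)
  have c4 := c2.mul c3
  rw [inv_mul_cancel_right] at c4
  rw [commutatorElement_def]
  refine c4.mono ?_
  rw [b3, b4]
  rw [b3] at b1
  omega

private theorem nt_comm [Finite Y] (V V' : Wr Γ Y) : nt ⁅V, V'⁆ ≤ 2 * (nt V + nt V') := by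
  rw [commutatorElement_def]
  have b1 := nt_mul (V * V' * V⁻¹) V'⁻¹
  have b2 := nt_mul (V * V') V⁻¹
  have b3 := nt_mul V V'
  have b4 : nt V⁻¹ = nt V := nt_inv V
  have b5 : nt V'⁻¹ = nt V' := nt_inv V'
  omega

/-- a product of `c` commutators of elements with at most `d` nontrivial sections each -/
theorem TT_CL (ys : List Y) (hnd : ys.Nodup) (hall : ∀ y, y ∈ ys) (d : ℕ) :
    ∀ l : List (Wr Γ Y × Wr Γ Y), (∀ p ∈ l, nt p.1 ≤ d ∧ nt p.2 ≤ d) →
      nt (l.map (fun p => ⁅p.1, p.2⁆)).prod ≤ l.length * (4 * d) ∧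
      CL (⊤ : Subgroup Γ) (l.length + l.length * l.length * (32 * d))
        (TT ys (l.map (fun p => ⁅p.1, p.2⁆)).prod) := by
  have := finite_of_all ys hall
  intro l
  induction l with
  | nil =>
    intro _
    constructor
    · simp [nt]
    · have : TT ys (1 : Wr Γ Y) = 1 := by
        refine List.prod_eq_one fun x hx => ?_
        obtain ⟨y, -, rfl⟩ := List.mem_map.1 hx
        exact Wr.one_sec y
      simp only [List.map_nil, List.prod_nil, this]
      exact CL.one _
  | cons p t ih =>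
    intro h
    obtain ⟨i1, i2⟩ := ih (fun q hq => h q (List.mem_cons_of_mem _ hq))
    obtain ⟨h1, h2⟩ := h p (List.mem_cons_self)
    have n1 := nt_comm p.1 p.2
    have n2 := nt_mul ⁅p.1, p.2⁆ (t.map (fun p => ⁅p.1, p.2⁆)).prod
    simp only [List.map_cons, List.prod_cons, List.length_cons]
    refine ⟨?_, ?_⟩
    · have : (t.length + 1) * (4 * d) = t.length * (4 * d) + 4 * d := by ring
      omega
    · have a1 := TT_mul ys hnd hall ⁅p.1, p.2⁆ (t.map (fun p => ⁅p.1, p.2⁆)).prod
      have a2 := (TT_comm ys hnd hall p.1 p.2).mul i2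
      have a3 := a1.mul a2
      rw [inv_mul_cancel_right] at a3
      refine a3.mono ?_
      have e : (t.length + 1) * (t.length + 1) * (32 * d)
          = t.length * t.length * (32 * d) + 64 * (t.length * d) + 32 * d := by ring
      have e2 : t.length * (4 * d) = 4 * (t.length * d) := by ring
      rw [e2] at i1
      rw [e]
      omega

end TT

end Pool.Agent.VX
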