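import Pool.Agent.VX.Perm

/-! Job VX-Trans. Transport of sections by commutators, and commutators in parallel. -/

namespace Pool.Agent.VX

open Pool.Agent.VW
open scoped commutatorElement

variable {F Y : Type} [Group F] {K N M : Subgroup F}

/-- Commutators in parallel: a family of products of `q` commutators of elements of `K` is the family
of sections of a product of `q` commutators of elements of `K`. Induction on `q` (`choose` the last
commutators `[a_y, b_y]`, realise `(a_y)`, `(b_y)` in `K` by `Λ.br`, use `base_comm`, `base_mul`). -/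
theorem Lvl.par (Λ : Lvl F Y K N M) : ∀ {q : ℕ} (κ : Y → F), (∀ y, CL K q (κ y)) →
    ∃ g, CL K q g ∧ Λ.Ψ g = base κ
  | 0, κ, h => by
      refine ⟨1, rfl, ?_⟩
      rw [map_one]
      have h1 : κ = fun _ => 1 := funext h
      rw [h1]
      rfl
  | q + 1, κ, h => by
      choose κ' a b ha hb hκ' he using h
      obtain ⟨g, hg, hgΨ⟩ := Lvl.par Λ κ' hκ'
      obtain ⟨α, hα, hαΨ⟩ := Λ.br a ha
      obtain ⟨β, hβ, hβΨ⟩ := Λ.br b hb
      refine ⟨g * ⁅α, β⁆, ⟨g, α, β, hα, hβ, hg, rfl⟩, ?_⟩
      rw [map_mul, map_commutatorElement, hgΨ, hαΨ, hβΨ, base_comm, base_mul]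
      congr 1
      funext y
      exact (he y).symm

private theorem prod_single [DecidableEq Y] (Λ : Lvl F Y K N M) (p : Y → Y) (v e : Y → F)
    (he : ∀ z, Λ.Ψ (e z) = base (fun y => if p z = y then v z else 1)) : ∀ l : List Y,
    Λ.Ψ (l.map e).prod = base (fun y => ((l.filter (fun z => decide (p z = y))).map v).prod)
  | [] => by
      simp only [List.map_nil, List.prod_nil, map_one, List.filter_nil]
      rfl
  | z :: l => by
      rw [List.map_cons, List.prod_cons, map_mul, he, prod_single Λ p v e he l, base_mul]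
      congr 1
      funext y
      by_cases h : p z = y
      · rw [if_pos h, List.filter_cons_of_pos (by simpa using h), List.map_cons, List.prod_cons]
      · rw [if_neg h, List.filter_cons_of_neg (by simpa using h), one_mul]

/-- Transport. Realise `κ z` at the single vertex `z` by `b z ∈ K` (`Λ.br`). Then
`b z = ⁅b z, s z⁆ * (s z * b z * (s z)⁻¹)`, and `s z * b z * (s z)⁻¹` has the section `σ κ_z σ⁻¹`,
`σ = (Λ.Ψ (s z)).sec z`, at `r z` and trivial sections elsewhere (`conj_base`). Multiply over the list `ys` of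
all vertices (`CL.prod_mul`). -/
theorem Lvl.transport [K.Normal] [DecidableEq Y] (Λ : Lvl F Y K N M) (ys : List Y) (hnd : ys.Nodup)
    (hall : ∀ y, y ∈ ys) (r : Y → Y) (s : Y → F) (hs : ∀ y, s y ∈ K)
    (hsr : ∀ y, (Λ.Ψ (s y)).perm y = r y) (κ : Y → F) (hκ : ∀ y, κ y ∈ K) :
    ∃ E, CL K ys.length E ∧ ∃ g ∈ K, Λ.Ψ (E * g) = base κ ∧
      Λ.Ψ g = base (fun y => ((ys.filter (fun z => decide (r z = y))).map
        (fun z => (Λ.Ψ (s z)).sec z * κ z * ((Λ.Ψ (s z)).sec z)⁻¹)).prod) := by
  have h1 : ∀ z, ∃ f ∈ K, Λ.Ψ f = base (fun y => if z = y then κ z else 1) := by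
    intro z
    refine Λ.br _ fun y => ?_
    split_ifs
    · exact hκ z
    · exact K.one_mem
  choose b hbK hbΨ using h1
  have h2 : ∀ z, Λ.Ψ (s z * b z * (s z)⁻¹) = base (fun y => if r z = y then
      (Λ.Ψ (s z)).sec z * κ z * ((Λ.Ψ (s z)).sec z)⁻¹ else 1) := by
    intro z
    rw [map_mul, map_mul, map_inv, hbΨ, conj_base]
    congr 1
    funext y
    by_cases h : r z = y
    · have h3 : (Λ.Ψ (s z)).perm⁻¹ y = z := by
        rw [← h, ← hsr z]
        simp
      rw [if_pos h, h3, if_pos rfl]
    · have h3 : ¬ z = (Λ.Ψ (s z)).perm⁻¹ y := by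
        intro h4
        apply h
        rw [← hsr z]
        nth_rw 2 [h4]
        simp
      rw [if_neg h, if_neg h3]
      group
  obtain ⟨E, hE, hEp⟩ := CL.prod_mul (K := K) ys (fun z => ⁅b z, s z⁆)
    (fun z => s z * b z * (s z)⁻¹) (fun z _ => CL.of_comm (hbK z) (hs z))
  refine ⟨E, hE, (ys.map (fun z => s z * b z * (s z)⁻¹)).prod, ?_, ?_, ?_⟩
  · apply Subgroup.list_prod_mem
    intro x hx
    obtain ⟨z, -, rfl⟩ := List.mem_map.1 hx
    exact Subgroup.Normal.conj_mem inferInstance _ (hbK z) (s z)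
  · rw [← hEp]
    have h4 : (fun z => ⁅b z, s z⁆ * (s z * b z * (s z)⁻¹)) = b := by
      funext z
      rw [commutatorElement_def]
      group
    rw [h4, prod_single Λ id κ b hbΨ]
    congr 1
    funext y
    have h5 : ys.filter (fun z => decide (id z = y)) = [y] := by
      have h6 : ys.filter (fun z => decide (id z = y)) = List.replicate (ys.count y) y := by
        rw [← List.filter_eq]
        rfl
      rw [h6, List.count_eq_one_of_mem hnd (hall y)]
      rfl
    rw [h5]
    simp
  · exact prod_single Λ r _ _ h2 ys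

end Pool.Agent.VX
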